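import Pool.Agent.Helper227.RD.Jump

set_option autoImplicit false

/-! Normal form for `SI` predicates and enumeration without repetition. -/

namespace Pool.Agent.L0h81.SH

open Pool.Agent.Helper227 Encodable

section
variable {α : Type*} [Primcodable α] {B : ℕ → Bool}

theorem si_pre_subst {p : List Bool → α → Prop} (hp : SI B fun x : List Bool × α => p x.1 x.2)
    {f : α → ℕ} (hf : Primrec f) : SI B fun a => p (pre B (f a)) a := by
  have h2 : SI B fun a => ∃ σ : List Bool, (σ.length = f a ∧
      ∀ i < σ.length, B i = σ.getD i false) ∧ p σ a := by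
    refine SI.ex (p := fun a (σ : List Bool) => (σ.length = f a ∧
      ∀ i < σ.length, B i = σ.getD i false) ∧ p σ a)
      (SI.and (SI.and (SI.of_prim ?_) ?_) ?_)
    · exact Primrec.eq.comp (Primrec.list_length.comp Primrec.snd) (hf.comp Primrec.fst)
    · refine SI.all_lt (α := α × List Bool) (p := fun x i => B i = x.2.getD i false)
        (f := fun x => x.2.length) ?_ (Primrec.list_length.comp Primrec.snd)
      exact SI.query.comp (f := fun z : (α × List Bool) × ℕ => (z.2, z.1.2.getD z.2 false))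
        (Primrec.snd.pair ((Primrec.list_getD false).comp (Primrec.snd.comp Primrec.fst) Primrec.snd))
    · exact hp.comp (f := fun x : α × List Bool => (x.2, x.1)) (Primrec.snd.pair Primrec.fst)
  refine h2.of_eq fun a => ?_
  constructor
  · rintro ⟨σ, ⟨h3, h4⟩, h5⟩
    have : pre B (f a) = σ := by
      refine List.ext_getElem (by simp [h3]) fun i h6 h7 => ?_
      rw [getElem_pre, h4 i h7]
      simp [h7]
    rwa [this]
  · intro h
    exact ⟨pre B (f a), ⟨by simp, fun i hi => (pre_getD B _ _ _ (by simpa using hi)).symm⟩, h⟩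

theorem si_nf {p : α → Prop} (hp : SI B p) :
    ∃ r : α → ℕ → Prop, SI B (fun x : α × ℕ => r x.1 x.2) ∧ SI B (fun x : α × ℕ => ¬ r x.1 x.2) ∧
      ∀ a, p a ↔ ∃ n, r a n := by
  obtain ⟨E, ⟨q, hq, hm, he⟩, mE, eE⟩ := hp
  refine ⟨fun a n => q (pre B n.unpair.1, a) n.unpair.2, ?_, ?_, ?_⟩
  · refine si_pre_subst (α := α × ℕ) (p := fun σ x => q (σ, x.1) x.2.unpair.2)
      (f := fun x => x.2.unpair.1) (SI.of_prim ?_) ?_
    · exact hq.comp (Primrec.fst.pair (Primrec.fst.comp Primrec.snd))
        (Primrec.snd.comp (Primrec.unpair.comp (Primrec.snd.comp Primrec.snd)))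
    · exact Primrec.fst.comp (Primrec.unpair.comp Primrec.snd)
  · refine si_pre_subst (α := α × ℕ) (p := fun σ x => ¬ q (σ, x.1) x.2.unpair.2)
      (f := fun x => x.2.unpair.1) (SI.of_prim (PrimrecPred.not ?_)) ?_
    · exact hq.comp (Primrec.fst.pair (Primrec.fst.comp Primrec.snd))
        (Primrec.snd.comp (Primrec.unpair.comp (Primrec.snd.comp Primrec.snd)))
    · exact Primrec.fst.comp (Primrec.unpair.comp Primrec.snd)
  · intro a
    rw [eE]
    constructor
    · rintro ⟨s, hs⟩
      obtain ⟨k, hk⟩ := (he _).1 hs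
      exact ⟨Nat.pair s k, by simpa using hk⟩
    · rintro ⟨n, hn⟩
      exact ⟨_, (he _).2 ⟨_, hn⟩⟩

/-- the number of occurrences of `true` -/
def cnt (σ : List Bool) : ℕ := σ.foldl (fun n b => if b then n + 1 else n) 0

theorem primrec_cnt : Primrec cnt := by
  refine Primrec.list_foldl (f := fun σ : List Bool => σ) (g := fun _ => 0)
    (h := fun _ (x : ℕ × Bool) => if x.2 then x.1 + 1 else x.1) Primrec.id (Primrec.const 0) ?_
  refine Primrec.ite (c := fun z : List Bool × (ℕ × Bool) => z.2.2 = true) ?_ ?_ ?_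
  · exact Primrec.eq.comp (Primrec.snd.comp Primrec.snd) (Primrec.const true)
  · exact Primrec.succ.comp (Primrec.fst.comp Primrec.snd)
  · exact Primrec.fst.comp Primrec.snd

theorem count_eq_cnt (χ : ℕ → Bool) (k : ℕ) : Nat.count (fun n => χ n = true) k = cnt (pre χ k) := by
  induction k with
  | zero => simp [pre, cnt]
  | succ k ih =>
    rw [Nat.count_succ, pre_succ, ih]
    unfold cnt
    rw [List.foldl_append]
    simp only [List.foldl_cons, List.foldl_nil]
    split_ifs <;> rfl

theorem si_nth (χ : ℕ → Bool) (hinf : {n | χ n = true}.Infinite) :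
    SI χ fun x : ℕ × ℕ => Nat.nth (fun n => χ n = true) x.1 = x.2 := by
  have h1 : SI χ fun x : ℕ × ℕ => χ x.2 = true ∧ cnt (pre χ x.2) = x.1 := by
    refine SI.and ?_ ?_
    · exact (SI.query (B := χ)).comp (f := fun x : ℕ × ℕ => (x.2, true))
        (Primrec.snd.pair (Primrec.const true))
    · refine si_pre_subst (α := ℕ × ℕ) (p := fun σ x => cnt σ = x.1) (f := fun x => x.2)
        (SI.of_prim ?_) Primrec.snd
      exact Primrec.eq.comp (primrec_cnt.comp Primrec.fst) (Primrec.fst.comp Primrec.snd)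
  refine h1.of_eq fun x => ?_
  rw [← count_eq_cnt]
  constructor
  · rintro ⟨h2, h3⟩
    rw [← h3]
    exact Nat.nth_count (p := fun n => χ n = true) h2
  · intro h
    rw [← h]
    exact ⟨Nat.nth_mem_of_infinite hinf _, Nat.count_nth_of_infinite hinf _⟩

/-- An infinite set that is c.e. in `B` has an enumeration without repetition that is computable
in `B`. -/
theorem exists_enum {p : ℕ → Prop} (hp : SI B p) (hinf : {x | p x}.Infinite) :
    ∃ e : ℕ → ℕ, Function.Injective e ∧ (∀ x, p x ↔ ∃ n, e n = x) ∧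
      SI B fun x : ℕ × ℕ => e x.1 = x.2 := by
  classical
  obtain ⟨r, hr, hr', he⟩ := si_nf hp
  set D : ℕ → Prop := fun k => r k.unpair.1 k.unpair.2 ∧ ∀ m < k.unpair.2, ¬ r k.unpair.1 m with hD
  have hD1 : SI B D := by
    refine SI.and ?_ ?_
    · exact hr.comp (f := fun k : ℕ => k.unpair) Primrec.unpair
    · refine SI.all_lt (α := ℕ) (p := fun k m => ¬ r k.unpair.1 m) (f := fun k => k.unpair.2) ?_
        (Primrec.snd.comp Primrec.unpair)
      exact hr'.comp (f := fun x : ℕ × ℕ => (x.1.unpair.1, x.2))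
        ((Primrec.fst.comp (Primrec.unpair.comp Primrec.fst)).pair Primrec.snd)
  have hD2 : SI B fun k => ¬ D k := by
    have h1 : SI B fun k : ℕ => ¬ r k.unpair.1 k.unpair.2 ∨ ∃ m, m < k.unpair.2 ∧ r k.unpair.1 m := by
      refine SI.or ?_ ?_
      · exact hr'.comp (f := fun k : ℕ => k.unpair) Primrec.unpair
      · refine SI.ex (p := fun (k m : ℕ) => m < k.unpair.2 ∧ r k.unpair.1 m)
          (SI.and (SI.of_prim ?_) ?_)
        · exact Primrec.nat_lt.comp Primrec.snd (Primrec.snd.comp (Primrec.unpair.comp Primrec.fst))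
        · exact hr.comp (f := fun x : ℕ × ℕ => (x.1.unpair.1, x.2))
            ((Primrec.fst.comp (Primrec.unpair.comp Primrec.fst)).pair Primrec.snd)
    refine h1.of_eq fun k => ?_
    simp only [hD]
    constructor
    · rintro (h | ⟨m, h2, h3⟩) ⟨h4, h5⟩
      · exact h h4
      · exact h5 m h2 h3
    · intro h
      by_contra hc
      push Not at hc
      exact h ⟨hc.1, fun m hm => hc.2 m hm⟩
  set χ : ℕ → Bool := fun k => decide (D k) with hχ
  have hχB : TLe χ B := by
    rw [tLe_iff_SI]
    have h1 : SI B fun x : ℕ × Bool => (x.2 = true ∧ D x.1) ∨ (x.2 = false ∧ ¬ D x.1) := by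
      refine SI.or (SI.and (SI.of_prim (Primrec.eq.comp Primrec.snd (Primrec.const true)))
        (hD1.comp Primrec.fst)) (SI.and (SI.of_prim
          (Primrec.eq.comp Primrec.snd (Primrec.const false)))
          (hD2.comp (f := fun x : ℕ × Bool => x.1) Primrec.fst))
    refine h1.of_eq fun x => ?_
    rcases x with ⟨k, b⟩
    simp only [hχ]
    by_cases h : D k <;> cases b <;> simp [h]
  have hχD : ∀ k, χ k = true ↔ D k := fun k => by simp [hχ]
  have hex : ∀ x, p x → ∃ k, D k ∧ k.unpair.1 = x := by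
    intro x hx
    have h1 := (he x).1 hx
    refine ⟨Nat.pair x (Nat.find h1), ⟨by simpa using Nat.find_spec h1, fun m hm => ?_⟩, by simp⟩
    have h2 : m < Nat.find h1 := by simpa using hm
    simpa using Nat.find_min h1 h2
  have hinj : ∀ k k', D k → D k' → k.unpair.1 = k'.unpair.1 → k = k' := by
    intro k k' h h' h1
    have h2 : k.unpair.2 = k'.unpair.2 := by
      rcases lt_trichotomy k.unpair.2 k'.unpair.2 with h3 | h3 | h3
      · exact absurd (h1 ▸ h.1) (h'.2 _ h3)
      · exact h3
      · exact absurd (h1 ▸ h'.1) (h.2 _ h3)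
    rw [← Nat.pair_unpair k, ← Nat.pair_unpair k', h1, h2]
  have hDinf : {k | χ k = true}.Infinite := by
    intro hfin
    refine hinf ((hfin.image fun k => k.unpair.1).subset ?_)
    intro x hx
    obtain ⟨k, hk, hk'⟩ := hex x hx
    exact ⟨k, (hχD k).2 hk, hk'⟩
  refine ⟨fun n => (Nat.nth (fun n => χ n = true) n).unpair.1, ?_, ?_, ?_⟩
  · intro m n hmn
    have h1 : D (Nat.nth (fun n => χ n = true) m) := (hχD _).1 (Nat.nth_mem_of_infinite hDinf m)
    have h2 : D (Nat.nth (fun n => χ n = true) n) := (hχD _).1 (Nat.nth_mem_of_infinite hDinf n)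
    exact (Nat.nth_strictMono hDinf).injective (hinj _ _ h1 h2 hmn)
  · intro x
    constructor
    · intro hx
      obtain ⟨k, hk, rfl⟩ := hex x hx
      exact ⟨Nat.count (fun n => χ n = true) k, by
        simp only
        rw [Nat.nth_count (p := fun n => χ n = true) ((hχD k).2 hk)]⟩
    · rintro ⟨n, rfl⟩
      have h1 : D (Nat.nth (fun n => χ n = true) n) := (hχD _).1 (Nat.nth_mem_of_infinite hDinf n)
      exact (he _).2 ⟨_, h1.1⟩
  · have h1 : SI χ fun x : ℕ × ℕ => ∃ k, Nat.nth (fun n => χ n = true) x.1 = k ∧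
        k.unpair.1 = x.2 := by
      refine SI.ex (p := fun (x : ℕ × ℕ) k => Nat.nth (fun n => χ n = true) x.1 = k ∧
        k.unpair.1 = x.2) (SI.and ?_ (SI.of_prim ?_))
      · exact (si_nth χ hDinf).comp (f := fun x : (ℕ × ℕ) × ℕ => (x.1.1, x.2))
          ((Primrec.fst.comp Primrec.fst).pair Primrec.snd)
      · exact Primrec.eq.comp (Primrec.fst.comp (Primrec.unpair.comp Primrec.snd))
          (Primrec.snd.comp Primrec.fst)
    exact (h1.trans hχB).of_eq fun x => by simp

end

end Pool.Agent.L0h81.SH
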