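import Pool.Agent.L0h81.SH.Words
import Pool.Agent.L0h81.SH.NF

set_option autoImplicit false

/-! Copies of the shuffle sum computable from a given set. -/

namespace Pool.Agent.L0h81.SH

open Pool.Agent.Helper227 Encodable Denumerable

section
variable {X : ℕ → Bool}

/-- decoding of labels -/
def dec (m : ℕ) : ℕ × List Bool × ℕ × ℕ :=
  (decode (α := ℕ × List Bool × ℕ × ℕ) m).getD (0, [], 0, 0)

theorem prim_dec : Primrec dec :=
  Primrec.option_getD.comp Primrec.decode (Primrec.const _)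

theorem dec_encode (x : ℕ × List Bool × ℕ × ℕ) : dec (encode x) = x := by
  simp [dec, encodek]

/-- Sigma-two approximation of the set of the sizes. -/
theorem exists_F {S : ℕ → Bool} (h0 : S 0 = false) (h1 : S 1 = true) (h : TLe S (jump X)) :
    ∃ (F : ℕ → Prop) (sz : ℕ → ℕ), Good F sz {w | S w = true} ∧ SI X F ∧ Primrec sz := by
  have hS : SI (jump X) fun n : ℕ => S n = true :=
    (tLe_iff_SI.1 h).comp (f := fun n : ℕ => (n, true)) (Primrec.id.pair (Primrec.const true))
  obtain ⟨E, ⟨q, hq, hm, he⟩, mE, eE⟩ := hS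
  have hP : SI X fun σ : List Bool => ∀ i < σ.length, σ.getD i false = false ∨ jump X i = true := by
    refine SI.all_lt (α := List Bool) (p := fun σ i => σ.getD i false = false ∨ jump X i = true)
      (f := fun σ => σ.length) (SI.or (SI.of_prim ?_) ?_) Primrec.list_length
    · exact Primrec.eq.comp ((Primrec.list_getD false).comp Primrec.fst Primrec.snd)
        (Primrec.const false)
    · exact (si_jump X).comp Primrec.snd
  have hN : SI X fun σ : List Bool => ∃ i, (i < σ.length ∧ σ.getD i false = false) ∧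
      jump X i = true := by
    refine SI.ex (p := fun (σ : List Bool) (i : ℕ) => (i < σ.length ∧ σ.getD i false = false) ∧
      jump X i = true) (SI.and (SI.of_prim (PrimrecPred.and ?_ ?_)) ?_)
    · exact Primrec.nat_lt.comp Primrec.snd (Primrec.list_length.comp Primrec.fst)
    · exact Primrec.eq.comp ((Primrec.list_getD false).comp Primrec.fst Primrec.snd)
        (Primrec.const false)
    · exact (si_jump X).comp Primrec.snd
  obtain ⟨r, -, hr', hr⟩ := si_nf hP
  have hdec : Primrec fun m : ℕ => dec m := prim_dec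
  refine ⟨fun m => (dec m).1 = 0 ∨
      (∃ i, (i < (dec m).2.1.length ∧
        (dec m).2.1.getD i false = false) ∧ jump X i = true) ∨
      ¬ r (dec m).2.1 (dec m).2.2.2 ∨
      ¬ q ((dec m).2.1, (dec m).1)
        (dec m).2.2.1,
    fun m => max 1 (dec m).1, ⟨?_, ?_, h1⟩, ?_, ?_⟩
  · exact fun m => le_max_left _ _
  · intro s
    constructor
    · intro hs
      have hs' : S s = true := hs
      have hs0 : s ≠ 0 := by
        rintro rfl
        rw [h0] at hs'
        cases hs'
      obtain ⟨u, hu⟩ := (eE s).1 hs'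
      obtain ⟨k, hk⟩ := (he _).1 hu
      obtain ⟨t, ht⟩ := (hr (pre (jump X) u)).1 (by
        intro i hi
        rw [length_pre] at hi
        rw [pre_getD _ _ _ _ hi]
        cases jump X i <;> simp)
      refine ⟨encode (s, pre (jump X) u, k, t), ?_, ?_⟩
      · rw [dec_encode]
        push Not
        refine ⟨hs0, ?_, ht, hk⟩
        rintro i ⟨hi, hi2⟩
        rw [length_pre] at hi
        rw [pre_getD _ _ _ _ hi] at hi2
        rw [hi2]
        simp
      · rw [dec_encode]
        simp only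
        omega
    · rintro ⟨m, hm', rfl⟩
      set x := dec m with hx
      push Not at hm'
      obtain ⟨a1, a2, a3, a4⟩ := hm'
      have hPσ := (hr x.2.1).2 ⟨_, a3⟩
      have hσ : pre (jump X) x.2.1.length = x.2.1 := by
        refine List.ext_getElem (by simp) fun i h6 h7 => ?_
        rw [getElem_pre]
        have e1 : x.2.1.getD i false = x.2.1[i] := by simp [h7]
        cases hb : x.2.1[i] with
        | false =>
          have := a2 i ⟨h7, by rw [e1, hb]⟩
          simpa using this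
        | true =>
          rcases hPσ i h7 with h8 | h8
          · rw [e1, hb] at h8
            cases h8
          · exact h8
      have hE : E (pre (jump X) x.2.1.length, x.1) := by
        rw [hσ]
        exact (he _).2 ⟨_, a4⟩
      have : S x.1 = true := (eE x.1).2 ⟨_, hE⟩
      have hmax : max 1 x.1 = x.1 := by omega
      rw [Set.mem_ofPred_eq, hmax]
      exact this
  · refine SI.or (SI.of_prim ?_) (SI.or ?_ (SI.or ?_ (SI.of_prim (PrimrecPred.not ?_))))
    · exact Primrec.eq.comp (Primrec.fst.comp hdec) (Primrec.const 0)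
    · exact hN.comp (f := fun m : ℕ => (dec m).2.1)
        (Primrec.fst.comp (Primrec.snd.comp hdec))
    · exact hr'.comp (f := fun m : ℕ => ((dec m).2.1,
        (dec m).2.2.2))
        ((Primrec.fst.comp (Primrec.snd.comp hdec)).pair
          (Primrec.snd.comp (Primrec.snd.comp (Primrec.snd.comp hdec))))
    · exact hq.comp ((Primrec.fst.comp (Primrec.snd.comp hdec)).pair (Primrec.fst.comp hdec))
        (Primrec.fst.comp (Primrec.snd.comp (Primrec.snd.comp hdec)))
  · exact Primrec.nat_max.comp (Primrec.const 1) (Primrec.fst.comp hdec)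

theorem prim_llt : PrimrecPred fun x : (ℕ × ℕ) × (ℕ × ℕ) => llt x.1 x.2 := by
  refine PrimrecPred.or ?_ (PrimrecPred.and ?_ ?_)
  · exact Primrec.nat_lt.comp (Primrec.fst.comp Primrec.fst) (Primrec.fst.comp Primrec.snd)
  · exact Primrec.eq.comp (Primrec.fst.comp Primrec.fst) (Primrec.fst.comp Primrec.snd)
  · exact Primrec.nat_lt.comp (Primrec.snd.comp Primrec.fst) (Primrec.snd.comp Primrec.snd)

theorem si_wlt : SI X fun x : Wd × Wd => wlt x.1 x.2 := by
  have h1 : SI X fun x : Wd × Wd => (∃ y : (ℕ × ℕ) × Wd, x.2 = x.1 ++ y.1 :: y.2) ∨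
      ∃ y : Wd × ((ℕ × ℕ) × (ℕ × ℕ)) × (Wd × Wd),
        (x.1 = y.1 ++ y.2.1.1 :: y.2.2.1 ∧ x.2 = y.1 ++ y.2.1.2 :: y.2.2.2) ∧
        llt y.2.1.1 y.2.1.2 := by
    refine SI.or (SI.ex (p := fun (x : Wd × Wd) (y : (ℕ × ℕ) × Wd) => x.2 = x.1 ++ y.1 :: y.2)
      (SI.of_prim ?_)) (SI.ex (p := fun (x : Wd × Wd) (y : Wd × ((ℕ × ℕ) × (ℕ × ℕ)) × (Wd × Wd)) =>
        (x.1 = y.1 ++ y.2.1.1 :: y.2.2.1 ∧ x.2 = y.1 ++ y.2.1.2 :: y.2.2.2) ∧
        llt y.2.1.1 y.2.1.2) (SI.of_prim (PrimrecPred.and (PrimrecPred.and ?_ ?_) ?_)))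
    · exact Primrec.eq.comp (Primrec.snd.comp Primrec.fst) (Primrec.list_append.comp
        (Primrec.fst.comp Primrec.fst) (Primrec.list_cons.comp (Primrec.fst.comp Primrec.snd)
          (Primrec.snd.comp Primrec.snd)))
    · exact Primrec.eq.comp (Primrec.fst.comp Primrec.fst) (Primrec.list_append.comp
        (Primrec.fst.comp Primrec.snd) (Primrec.list_cons.comp
          (Primrec.fst.comp (Primrec.fst.comp (Primrec.snd.comp Primrec.snd)))
          (Primrec.fst.comp (Primrec.snd.comp (Primrec.snd.comp Primrec.snd)))))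
    · exact Primrec.eq.comp (Primrec.snd.comp Primrec.fst) (Primrec.list_append.comp
        (Primrec.fst.comp Primrec.snd) (Primrec.list_cons.comp
          (Primrec.snd.comp (Primrec.fst.comp (Primrec.snd.comp Primrec.snd)))
          (Primrec.snd.comp (Primrec.snd.comp (Primrec.snd.comp Primrec.snd)))))
    · exact prim_llt.comp (Primrec.fst.comp (Primrec.snd.comp Primrec.snd))
  refine h1.of_eq fun x => ?_
  rw [wlt_iff]
  constructor
  · rintro (⟨y, h⟩ | ⟨y, ⟨h2, h3⟩, h4⟩)
    · exact Or.inl ⟨y.1, y.2, h⟩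
    · exact Or.inr ⟨y.1, _, _, _, _, h2, h3, h4⟩
  · rintro (⟨a, s, h⟩ | ⟨p, a, b, s, t, h2, h3, h4⟩)
    · exact Or.inl ⟨(a, s), h⟩
    · exact Or.inr ⟨(p, (a, b), (s, t)), ⟨h2, h3⟩, h4⟩

theorem si_not_wlt : SI X fun x : Wd × Wd => ¬ wlt x.1 x.2 := by
  have h1 : SI X fun x : Wd × Wd => x.1 = x.2 ∨ wlt x.2 x.1 :=
    SI.or (SI.of_prim (Primrec.eq.comp Primrec.fst Primrec.snd))
      (si_wlt.comp (f := fun x : Wd × Wd => (x.2, x.1)) (Primrec.snd.pair Primrec.fst))
  refine h1.of_eq fun x => ?_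
  constructor
  · rintro (h | h) h2
    · rw [h] at h2
      exact wlt_irrefl _ h2
    · exact wlt_asymm h h2
  · intro h
    by_cases h2 : x.1 = x.2
    · exact Or.inl h2
    · rcases wlt_total _ _ h2 with h3 | h3
      · exact absurd h3 h
      · exact Or.inr h3

variable {F : ℕ → Prop} {sz : ℕ → ℕ}

theorem si_val (hF : SI X F) (hsz : Primrec sz) : SI X fun l : Wd => Val F sz l := by
  have hlt : PrimrecPred fun x : ℕ × ℕ => x.2 < 2 * sz x.1 :=
    Primrec.nat_lt.comp Primrec.snd (Primrec.nat_mul.comp (Primrec.const 2)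
      (hsz.comp Primrec.fst))
  have hmod : ∀ b : ℕ, PrimrecPred fun x : ℕ × ℕ => x.2 % 2 = b := fun b =>
    Primrec.eq.comp (Primrec.nat_mod.comp Primrec.snd (Primrec.const 2)) (Primrec.const b)
  have hIL : SI X fun x : ℕ × ℕ => IL F sz x := by
    refine SI.and (SI.of_prim (hmod 0)) (SI.or (SI.of_prim ?_) (SI.and ?_ (SI.of_prim hlt)))
    · exact Primrec.eq.comp Primrec.snd (Primrec.const 0)
    · exact hF.comp Primrec.fst
  have hEL : SI X fun x : ℕ × ℕ => EL sz x := SI.of_prim ((hmod 1).and hlt)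
  have h1 : SI X fun l : Wd => ∃ y : Wd × (ℕ × ℕ), (l = y.1 ++ [y.2] ∧
      ∀ z ∈ y.1, IL F sz z) ∧ EL sz y.2 := by
    refine SI.ex (p := fun (l : Wd) (y : Wd × (ℕ × ℕ)) => (l = y.1 ++ [y.2] ∧
      ∀ z ∈ y.1, IL F sz z) ∧ EL sz y.2) (SI.and (SI.and (SI.of_prim ?_) ?_) ?_)
    · exact Primrec.eq.comp Primrec.fst (Primrec.list_append.comp
        (Primrec.fst.comp Primrec.snd) (Primrec.list_cons.comp (Primrec.snd.comp Primrec.snd)
          (Primrec.const [])))
    · refine SI.all_mem (α := Wd × (Wd × (ℕ × ℕ))) (p := fun _ z => IL F sz z)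
        (f := fun x => x.2.1) ?_ (Primrec.fst.comp Primrec.snd)
      exact hIL.comp (f := fun x : (Wd × (Wd × (ℕ × ℕ))) × (ℕ × ℕ) => x.2) Primrec.snd
    · exact hEL.comp (f := fun x : Wd × (Wd × (ℕ × ℕ)) => x.2.2) (Primrec.snd.comp Primrec.snd)
  refine h1.of_eq fun l => ?_
  rw [val_iff]
  constructor
  · rintro ⟨y, ⟨h2, h3⟩, h4⟩
    exact ⟨y.1, y.2, h2, h3, h4⟩
  · rintro ⟨q, x, h2, h3, h4⟩
    exact ⟨(q, x), ⟨h2, h3⟩, h4⟩

theorem exists_copy (hs : ∀ m, 1 ≤ sz m) (hF : SI X F) (hsz : Primrec sz) :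
    ∃ (e : ℕ ≃ {l : Wd // Val F sz l}) (B : ℕ → Bool), TLe B X ∧
      ∀ m n, B (Nat.pair m n) = true ↔ wlt (e m).1 (e n).1 := by
  classical
  have hp : SI X fun x : ℕ => Val F sz (ofNat Wd x) :=
    (si_val hF hsz).comp (Primrec.ofNat Wd)
  have hval : ∀ m, Val F sz [(m, 1)] := fun m =>
    ⟨by norm_num, by have := hs m; change 1 < 2 * sz m; omega⟩
  have hinf : {x : ℕ | Val F sz (ofNat Wd x)}.Infinite := by
    refine Set.infinite_of_injective_forall_mem (f := fun m : ℕ => encode ([(m, 1)] : Wd)) ?_ ?_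
    · intro m n h
      have := encode_injective h
      simpa using this
    · intro m
      rw [Set.mem_ofPred_eq, ofNat_encode]
      exact hval m
  obtain ⟨e0, hinj, hran, hgr⟩ := exists_enum hp hinf
  let e : ℕ ≃ {l : Wd // Val F sz l} := Equiv.ofBijective
    (fun n => ⟨ofNat Wd (e0 n), (hran _).2 ⟨n, rfl⟩⟩) (by
      constructor
      · intro m n h
        have h1 := congrArg Subtype.val h
        simp only at h1
        have h2 := congrArg encode h1
        rw [encode_ofNat, encode_ofNat] at h2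
        exact hinj h2
      · rintro ⟨l, hl⟩
        obtain ⟨n, hn⟩ := (hran (encode l)).1 (by rw [ofNat_encode]; exact hl)
        refine ⟨n, Subtype.ext ?_⟩
        simp only
        rw [hn, ofNat_encode])
  refine ⟨e, fun n => decide (wlt (ofNat Wd (e0 n.unpair.1)) (ofNat Wd (e0 n.unpair.2))), ?_, ?_⟩
  · rw [tLe_iff_SI]
    have h1 : SI X fun x : ℕ × Bool => ∃ y : ℕ × ℕ, (e0 x.1.unpair.1 = y.1 ∧
        e0 x.1.unpair.2 = y.2) ∧ ((wlt (ofNat Wd y.1) (ofNat Wd y.2) ∧ x.2 = true) ∨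
        (¬ wlt (ofNat Wd y.1) (ofNat Wd y.2) ∧ x.2 = false)) := by
      refine SI.ex (p := fun (x : ℕ × Bool) (y : ℕ × ℕ) => (e0 x.1.unpair.1 = y.1 ∧
        e0 x.1.unpair.2 = y.2) ∧ ((wlt (ofNat Wd y.1) (ofNat Wd y.2) ∧ x.2 = true) ∨
        (¬ wlt (ofNat Wd y.1) (ofNat Wd y.2) ∧ x.2 = false)))
        (SI.and (SI.and ?_ ?_) (SI.or (SI.and ?_ (SI.of_prim ?_)) (SI.and ?_ (SI.of_prim ?_))))
      · exact hgr.comp (f := fun x : (ℕ × Bool) × (ℕ × ℕ) => (x.1.1.unpair.1, x.2.1))
          ((Primrec.fst.comp (Primrec.unpair.comp (Primrec.fst.comp Primrec.fst))).pair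
            (Primrec.fst.comp Primrec.snd))
      · exact hgr.comp (f := fun x : (ℕ × Bool) × (ℕ × ℕ) => (x.1.1.unpair.2, x.2.2))
          ((Primrec.snd.comp (Primrec.unpair.comp (Primrec.fst.comp Primrec.fst))).pair
            (Primrec.snd.comp Primrec.snd))
      · exact si_wlt.comp (f := fun x : (ℕ × Bool) × (ℕ × ℕ) => (ofNat Wd x.2.1, ofNat Wd x.2.2))
          (((Primrec.ofNat Wd).comp (Primrec.fst.comp Primrec.snd)).pair
            ((Primrec.ofNat Wd).comp (Primrec.snd.comp Primrec.snd)))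
      · exact Primrec.eq.comp (Primrec.snd.comp Primrec.fst) (Primrec.const true)
      · exact si_not_wlt.comp
          (f := fun x : (ℕ × Bool) × (ℕ × ℕ) => (ofNat Wd x.2.1, ofNat Wd x.2.2))
          (((Primrec.ofNat Wd).comp (Primrec.fst.comp Primrec.snd)).pair
            ((Primrec.ofNat Wd).comp (Primrec.snd.comp Primrec.snd)))
      · exact Primrec.eq.comp (Primrec.snd.comp Primrec.fst) (Primrec.const false)
    refine h1.of_eq fun x => ?_
    rcases x with ⟨n, b⟩
    constructor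
    · rintro ⟨y, ⟨h2, h3⟩, h4⟩
      simp only at h2 h3 h4 ⊢
      rw [h2, h3]
      rcases h4 with ⟨h4, rfl⟩ | ⟨h4, rfl⟩ <;> simp [h4]
    · intro h2
      refine ⟨(e0 n.unpair.1, e0 n.unpair.2), ⟨rfl, rfl⟩, ?_⟩
      simp only at h2 ⊢
      cases b
      · right
        simpa using h2
      · left
        simpa using h2
  · intro m n
    simp only [Nat.unpair_pair, decide_eq_true_eq]
    exact Iff.rfl

/-- Coding `X` into the copy. -/
theorem exists_copy_deg (hs : ∀ m, 1 ≤ sz m) (hF : SI X F) (hsz : Primrec sz) :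
    ∃ (e : ℕ ≃ {l : Wd // Val F sz l}) (B : ℕ → Bool), TLe B X ∧
      (∀ m n, B (Nat.pair m n) = true ↔ wlt (e m).1 (e n).1) ∧
      ∀ n, B (Nat.pair (2 * n) (2 * n + 1)) = X n := by
  classical
  obtain ⟨e, B, hBX, hB⟩ := exists_copy hs hF hsz
  set sw : ℕ → ℕ := fun k => if k % 2 = 0 then k + 1 else k - 1 with hsw
  set g : ℕ → ℕ := fun k => if B (Nat.pair (2 * (k / 2)) (2 * (k / 2) + 1)) = X (k / 2) then k
    else sw k with hg
  have hswp : Primrec sw := by
    refine Primrec.ite (Primrec.eq.comp (Primrec.nat_mod.comp Primrec.id (Primrec.const 2))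
      (Primrec.const 0)) Primrec.succ ?_
    exact Primrec.nat_sub.comp Primrec.id (Primrec.const 1)
  have hsw2 : ∀ k, sw k / 2 = k / 2 := by
    intro k
    simp only [hsw]
    split_ifs <;> omega
  have hsw1 : ∀ k, sw (sw k) = k := by
    intro k
    simp only [hsw]
    split_ifs <;> omega
  have hgi : Function.Involutive g := by
    intro k
    by_cases h : B (Nat.pair (2 * (k / 2)) (2 * (k / 2) + 1)) = X (k / 2)
    · have h1 : g k = k := by simp only [hg, h, if_true]
      rw [h1, h1]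
    · have h1 : g k = sw k := by simp only [hg, h, if_false]
      have h2 : g (sw k) = sw (sw k) := by
        simp only [hg, hsw2, h, if_false]
      rw [h1, h2, hsw1]
  have hhalf : Primrec fun k : ℕ => k / 2 := Primrec.nat_div.comp Primrec.id (Primrec.const 2)
  have hpr : Primrec fun k : ℕ => Nat.pair (2 * (k / 2)) (2 * (k / 2) + 1) :=
    Primrec₂.natPair.comp (Primrec.nat_mul.comp (Primrec.const 2) hhalf)
      (Primrec.succ.comp (Primrec.nat_mul.comp (Primrec.const 2) hhalf))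
  have hsig : SI X fun x : ℕ × ℕ => g x.1 = x.2 := by
    have h1 : SI X fun x : ℕ × ℕ => ∃ b : Bool × Bool,
        (B (Nat.pair (2 * (x.1 / 2)) (2 * (x.1 / 2) + 1)) = b.1 ∧ X (x.1 / 2) = b.2) ∧
        ((b.1 = b.2 ∧ x.1 = x.2) ∨ (¬ b.1 = b.2 ∧ sw x.1 = x.2)) := by
      refine SI.ex (p := fun (x : ℕ × ℕ) (b : Bool × Bool) =>
        (B (Nat.pair (2 * (x.1 / 2)) (2 * (x.1 / 2) + 1)) = b.1 ∧ X (x.1 / 2) = b.2) ∧
        ((b.1 = b.2 ∧ x.1 = x.2) ∨ (¬ b.1 = b.2 ∧ sw x.1 = x.2)))
        (SI.and (SI.and ?_ ?_) (SI.of_prim (PrimrecPred.or (PrimrecPred.and ?_ ?_)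
          (PrimrecPred.and (PrimrecPred.not ?_) ?_))))
      · exact (tLe_iff_SI.1 hBX).comp (f := fun x : (ℕ × ℕ) × (Bool × Bool) =>
          (Nat.pair (2 * (x.1.1 / 2)) (2 * (x.1.1 / 2) + 1), x.2.1))
          ((hpr.comp (Primrec.fst.comp Primrec.fst)).pair (Primrec.fst.comp Primrec.snd))
      · exact SI.query.comp (f := fun x : (ℕ × ℕ) × (Bool × Bool) => (x.1.1 / 2, x.2.2))
          ((hhalf.comp (Primrec.fst.comp Primrec.fst)).pair (Primrec.snd.comp Primrec.snd))
      · exact Primrec.eq.comp (Primrec.fst.comp Primrec.snd) (Primrec.snd.comp Primrec.snd)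
      · exact Primrec.eq.comp (Primrec.fst.comp Primrec.fst) (Primrec.snd.comp Primrec.fst)
      · exact Primrec.eq.comp (Primrec.fst.comp Primrec.snd) (Primrec.snd.comp Primrec.snd)
      · exact Primrec.eq.comp (hswp.comp (Primrec.fst.comp Primrec.fst))
          (Primrec.snd.comp Primrec.fst)
    refine h1.of_eq fun x => ?_
    constructor
    · rintro ⟨b, ⟨h2, h3⟩, h4⟩
      simp only [hg]
      rw [h2, h3]
      rcases h4 with ⟨h4, h5⟩ | ⟨h4, h5⟩
      · rw [if_pos h4, h5]
      · rw [if_neg h4, h5]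
    · intro h
      refine ⟨(B (Nat.pair (2 * (x.1 / 2)) (2 * (x.1 / 2) + 1)), X (x.1 / 2)), ⟨rfl, rfl⟩, ?_⟩
      simp only [hg] at h
      split_ifs at h with h2
      · exact Or.inl ⟨h2, h⟩
      · exact Or.inr ⟨h2, h⟩
  refine ⟨hgi.toPerm.trans e, fun n => B (Nat.pair (g n.unpair.1) (g n.unpair.2)), ?_, ?_, ?_⟩
  · rw [tLe_iff_SI]
    have h1 : SI X fun x : ℕ × Bool => ∃ y : ℕ × ℕ, (g x.1.unpair.1 = y.1 ∧
        g x.1.unpair.2 = y.2) ∧ B (Nat.pair y.1 y.2) = x.2 := by
      refine SI.ex (p := fun (x : ℕ × Bool) (y : ℕ × ℕ) => (g x.1.unpair.1 = y.1 ∧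
        g x.1.unpair.2 = y.2) ∧ B (Nat.pair y.1 y.2) = x.2) (SI.and (SI.and ?_ ?_) ?_)
      · exact hsig.comp (f := fun x : (ℕ × Bool) × (ℕ × ℕ) => (x.1.1.unpair.1, x.2.1))
          ((Primrec.fst.comp (Primrec.unpair.comp (Primrec.fst.comp Primrec.fst))).pair
            (Primrec.fst.comp Primrec.snd))
      · exact hsig.comp (f := fun x : (ℕ × Bool) × (ℕ × ℕ) => (x.1.1.unpair.2, x.2.2))
          ((Primrec.snd.comp (Primrec.unpair.comp (Primrec.fst.comp Primrec.fst))).pair
            (Primrec.snd.comp Primrec.snd))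
      · exact (tLe_iff_SI.1 hBX).comp (f := fun x : (ℕ × Bool) × (ℕ × ℕ) =>
          (Nat.pair x.2.1 x.2.2, x.1.2))
          ((Primrec₂.natPair.comp (Primrec.fst.comp Primrec.snd)
            (Primrec.snd.comp Primrec.snd)).pair (Primrec.snd.comp Primrec.fst))
    refine h1.of_eq fun x => ?_
    constructor
    · rintro ⟨y, ⟨h2, h3⟩, h4⟩
      rw [h2, h3, h4]
    · intro h
      exact ⟨(g x.1.unpair.1, g x.1.unpair.2), ⟨rfl, rfl⟩, h⟩
  · intro m n
    simp only [Nat.unpair_pair]
    rw [hB]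
    rfl
  · intro n
    simp only [Nat.unpair_pair]
    have e1 : 2 * n / 2 = n := by omega
    have e2 : (2 * n + 1) / 2 = n := by omega
    by_cases h : B (Nat.pair (2 * n) (2 * n + 1)) = X n
    · have h1 : g (2 * n) = 2 * n := by simp only [hg, e1, h, if_true]
      have h2 : g (2 * n + 1) = 2 * n + 1 := by simp only [hg, e2, h, if_true]
      rw [h1, h2, h]
    · have h1 : g (2 * n) = 2 * n + 1 := by
        simp only [hg, e1, h, if_false, hsw]
        rw [if_pos (by omega)]
      have h2 : g (2 * n + 1) = 2 * n := by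
        simp only [hg, e2, h, if_false, hsw]
        rw [if_neg (by omega)]
        omega
      rw [h1, h2]
      have hne : (e (2 * n)).1 ≠ (e (2 * n + 1)).1 := by
        intro h3
        have := e.injective (Subtype.ext h3)
        omega
      have h3 : B (Nat.pair (2 * n + 1) (2 * n)) = ! B (Nat.pair (2 * n) (2 * n + 1)) := by
        rcases wlt_total _ _ hne with h4 | h4
        · have h5 := (hB _ _).2 h4
          have h6 : ¬ B (Nat.pair (2 * n + 1) (2 * n)) = true := fun h7 =>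
            wlt_asymm h4 ((hB _ _).1 h7)
          rw [h5]
          simpa using h6
        · have h5 := (hB _ _).2 h4
          have h6 : ¬ B (Nat.pair (2 * n) (2 * n + 1)) = true := fun h7 =>
            wlt_asymm h4 ((hB _ _).1 h7)
          rw [h5]
          simp only [Bool.not_eq_true] at h6
          rw [h6]
          rfl
      rw [h3]
      cases hb : B (Nat.pair (2 * n) (2 * n + 1)) <;> cases hx : X n <;> simp_all

end

end Pool.Agent.L0h81.SH
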