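import Pool.Agent.Helper227.RD.Jump

set_option autoImplicit false

/-! A set computable from the jump of `A` that is not the set of the greatest elements of the
sections of a set c.e. in `A` all of whose sections are bounded. -/

namespace Pool.Agent.L0h81.SH

open Pool.Agent.Helper227

/-- the section of `W` at `x` -/
def sec (W : Set ℕ) (x : ℕ) : Set ℕ := {w | Nat.pair x w ∈ W}

/-- the set of the greatest elements of the sections of `W` -/
def tops (W : Set ℕ) : Set ℕ := {w | ∃ x, IsGreatest (sec W x) w}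

section
variable (A : ℕ → Bool)

def big (e x : ℕ) : Prop := ∃ w, 2 * e + 2 ≤ w ∧ Nat.pair x w ∈ WE A e

def ch (e x : ℕ) : Prop := big A e x ∧ ∀ x' < x, ¬ big A e x'

def above (e x w : ℕ) : Prop := ∃ w', w < w' ∧ Nat.pair x w' ∈ WE A e

def top (e x w : ℕ) : Prop := Nat.pair x w ∈ WE A e ∧ ¬ above A e x w

def exc (w : ℕ) : Prop := ∃ e, 2 * e + 2 ≤ w ∧ ∃ x, ch A e x ∧ top A e x w

open Classical in
noncomputable def dS : ℕ → Bool := fun w => decide (1 ≤ w ∧ ¬ exc A w)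

theorem si_big : SI A fun x : ℕ × ℕ => big A x.1 x.2 := by
  refine SI.ex (p := fun (x : ℕ × ℕ) (w : ℕ) => 2 * x.1 + 2 ≤ w ∧ Nat.pair x.2 w ∈ WE A x.1)
    (SI.and (SI.of_prim ?_) ?_)
  · exact Primrec.nat_le.comp (Primrec.nat_add.comp (Primrec.nat_mul.comp (Primrec.const 2)
      (Primrec.fst.comp Primrec.fst)) (Primrec.const 2)) Primrec.snd
  · exact (si_WE A).comp (f := fun x : (ℕ × ℕ) × ℕ => (x.1.1, Nat.pair x.1.2 x.2))
      ((Primrec.fst.comp Primrec.fst).pair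
        (Primrec₂.natPair.comp (Primrec.snd.comp Primrec.fst) Primrec.snd))

theorem si_above : SI A fun x : ℕ × ℕ × ℕ => above A x.1 x.2.1 x.2.2 := by
  refine SI.ex (p := fun (x : ℕ × ℕ × ℕ) (w' : ℕ) => x.2.2 < w' ∧ Nat.pair x.2.1 w' ∈ WE A x.1)
    (SI.and (SI.of_prim ?_) ?_)
  · exact Primrec.nat_lt.comp (Primrec.snd.comp (Primrec.snd.comp Primrec.fst)) Primrec.snd
  · exact (si_WE A).comp (f := fun x : (ℕ × ℕ × ℕ) × ℕ => (x.1.1, Nat.pair x.1.2.1 x.2))
      ((Primrec.fst.comp Primrec.fst).pair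
        (Primrec₂.natPair.comp (Primrec.fst.comp (Primrec.snd.comp Primrec.fst)) Primrec.snd))

theorem si_ch : SI (jump A) fun x : ℕ × ℕ => ch A x.1 x.2 := by
  refine SI.and (si_big A).decide_jump.1 ?_
  refine SI.all_lt (α := ℕ × ℕ) (p := fun x x' => ¬ big A x.1 x') (f := fun x => x.2) ?_ Primrec.snd
  exact (si_big A).decide_jump.2.comp (f := fun z : (ℕ × ℕ) × ℕ => (z.1.1, z.2))
    ((Primrec.fst.comp Primrec.fst).pair Primrec.snd)

theorem si_mem : SI A fun x : ℕ × ℕ × ℕ => Nat.pair x.2.1 x.2.2 ∈ WE A x.1 :=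
  (si_WE A).comp (f := fun x : ℕ × ℕ × ℕ => (x.1, Nat.pair x.2.1 x.2.2))
      (Primrec.fst.pair (Primrec₂.natPair.comp (Primrec.fst.comp Primrec.snd)
        (Primrec.snd.comp Primrec.snd)))

theorem si_top : SI (jump A) fun x : ℕ × ℕ × ℕ => top A x.1 x.2.1 x.2.2 :=
  SI.and (si_mem A).decide_jump.1 (si_above A).decide_jump.2

theorem si_not_top : SI (jump A) fun x : ℕ × ℕ × ℕ => ¬ top A x.1 x.2.1 x.2.2 := by
  refine (SI.or (si_mem A).decide_jump.2 (si_above A).decide_jump.1).of_eq fun x => ?_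
  unfold top
  tauto

theorem si_exc : SI (jump A) fun w : ℕ => exc A w := by
  refine SI.ex (p := fun (w e : ℕ) => 2 * e + 2 ≤ w ∧ ∃ x, ch A e x ∧ top A e x w)
    (SI.and (SI.of_prim ?_) ?_)
  · exact Primrec.nat_le.comp (Primrec.nat_add.comp (Primrec.nat_mul.comp (Primrec.const 2)
      Primrec.snd) (Primrec.const 2)) Primrec.fst
  · refine SI.ex (p := fun (z : ℕ × ℕ) (x : ℕ) => ch A z.2 x ∧ top A z.2 x z.1) (SI.and ?_ ?_)
    · exact (si_ch A).comp (f := fun z : (ℕ × ℕ) × ℕ => (z.1.2, z.2))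
        ((Primrec.snd.comp Primrec.fst).pair Primrec.snd)
    · exact (si_top A).comp (f := fun z : (ℕ × ℕ) × ℕ => (z.1.2, z.2, z.1.1))
        ((Primrec.snd.comp Primrec.fst).pair (Primrec.snd.pair (Primrec.fst.comp Primrec.fst)))

theorem ch_unique {e x y : ℕ} (hx : ch A e x) (hy : ch A e y) : x = y := by
  rcases lt_trichotomy x y with h | h | h
  · exact absurd hx.1 (hy.2 x h)
  · exact h
  · exact absurd hy.1 (hx.2 y h)

open Classical in
theorem exists_ch {e x : ℕ} (h : big A e x) : ∃ y, ch A e y :=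
  ⟨Nat.find ⟨x, h⟩, Nat.find_spec ⟨x, h⟩, fun _ hx' => Nat.find_min ⟨x, h⟩ hx'⟩

theorem si_not_exc : SI (jump A) fun w : ℕ => ¬ exc A w := by
  have h1 : SI (jump A) fun w : ℕ => ∀ e < w, (w < 2 * e + 2 ∨ ((¬ ∃ x, big A e x) ∨
      ∃ x, ch A e x ∧ ¬ top A e x w)) := by
    refine SI.all_lt (α := ℕ) (p := fun w e => (w < 2 * e + 2 ∨ ((¬ ∃ x, big A e x) ∨
      ∃ x, ch A e x ∧ ¬ top A e x w))) (f := fun w => w) ?_ Primrec.id
    refine SI.or (SI.of_prim ?_) (SI.or ?_ ?_)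
    · exact Primrec.nat_lt.comp Primrec.fst (Primrec.nat_add.comp (Primrec.nat_mul.comp
        (Primrec.const 2) Primrec.snd) (Primrec.const 2))
    · have h2 : SI A fun e : ℕ => ∃ x, big A e x :=
        SI.ex (p := fun e x => big A e x) (si_big A)
      exact h2.decide_jump.2.comp (f := fun z : ℕ × ℕ => z.2) Primrec.snd
    · refine SI.ex (p := fun (z : ℕ × ℕ) (x : ℕ) => ch A z.2 x ∧ ¬ top A z.2 x z.1) (SI.and ?_ ?_)
      · exact (si_ch A).comp (f := fun z : (ℕ × ℕ) × ℕ => (z.1.2, z.2))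
          ((Primrec.snd.comp Primrec.fst).pair Primrec.snd)
      · exact (si_not_top A).comp (f := fun z : (ℕ × ℕ) × ℕ => (z.1.2, z.2, z.1.1))
          ((Primrec.snd.comp Primrec.fst).pair (Primrec.snd.pair (Primrec.fst.comp Primrec.fst)))
  refine h1.of_eq fun w => ?_
  constructor
  · rintro h ⟨e, he, x, hx, ht⟩
    rcases h e (by omega) with h | h | ⟨y, hy, hty⟩
    · omega
    · exact h ⟨x, hx.1⟩
    · rw [ch_unique A hx hy] at ht
      exact hty ht
  · intro h e _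
    by_cases h3 : w < 2 * e + 2
    · exact Or.inl h3
    by_cases h4 : ∃ x, big A e x
    · obtain ⟨x, hx⟩ := h4
      obtain ⟨y, hy⟩ := exists_ch A hx
      exact Or.inr (Or.inr ⟨y, hy, fun ht => h ⟨e, by omega, y, hy, ht⟩⟩)
    · exact Or.inr (Or.inl h4)

theorem dS_tLe : TLe (dS A) (jump A) := by
  rw [tLe_iff_SI]
  have h : SI (jump A) fun x : ℕ × Bool => (x.2 = true ∧ 1 ≤ x.1 ∧ ¬ exc A x.1) ∨
      (x.2 = false ∧ (x.1 = 0 ∨ exc A x.1)) := by
    refine SI.or (SI.and (SI.of_prim (Primrec.eq.comp Primrec.snd (Primrec.const true)))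
      (SI.and (SI.of_prim (Primrec.nat_le.comp (Primrec.const 1) Primrec.fst)) ?_))
      (SI.and (SI.of_prim (Primrec.eq.comp Primrec.snd (Primrec.const false)))
      (SI.or (SI.of_prim (Primrec.eq.comp Primrec.fst (Primrec.const 0))) ?_))
    · exact (si_not_exc A).comp (f := fun x : ℕ × Bool => x.1) Primrec.fst
    · exact (si_exc A).comp (f := fun x : ℕ × Bool => x.1) Primrec.fst
  refine h.of_eq fun x => ?_
  rcases x with ⟨w, b⟩
  unfold dS
  by_cases h1 : 1 ≤ w <;> by_cases h2 : exc A w <;> cases b <;> simp [h1, h2] <;> omega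

theorem top_unique {e x w w' : ℕ} (h : top A e x w) (h' : top A e x w') : w = w' := by
  rcases lt_trichotomy w w' with h1 | h1 | h1
  · exact absurd ⟨w', h1, h'.1⟩ h.2
  · exact h1
  · exact absurd ⟨w, h1, h.1⟩ h'.2

theorem dS_large (e₀ : ℕ) : ∃ w, 2 * e₀ + 2 ≤ w ∧ dS A w = true := by
  classical
  by_contra hc
  push Not at hc
  have h1 : ∀ w, 2 * e₀ + 2 ≤ w → exc A w := by
    intro w hw
    have := hc w hw
    unfold dS at this
    by_contra h
    exact this (decide_eq_true ⟨by omega, h⟩)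
  have h2 : ∀ w, ∃ e, 2 * e₀ + 2 ≤ w → (2 * e + 2 ≤ w ∧ ∃ x, ch A e x ∧ top A e x w) := by
    intro w
    by_cases hw : 2 * e₀ + 2 ≤ w
    · obtain ⟨e, h⟩ := h1 w hw
      exact ⟨e, fun _ => h⟩
    · exact ⟨0, fun h => absurd h hw⟩
  choose f hf using h2
  have h3 : (Finset.Ico (2 * e₀ + 2) (4 * e₀ + 6)).card ≤ (Finset.range (2 * e₀ + 2)).card := by
    refine Finset.card_le_card_of_injOn f ?_ ?_
    · intro w hw
      simp only [Finset.coe_Ico, Set.mem_Ico] at hw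
      have := (hf w hw.1).1
      simp only [Finset.coe_range, Set.mem_Iio]
      omega
    · intro w hw w' hw' he
      simp only [Finset.coe_Ico, Set.mem_Ico] at hw hw'
      obtain ⟨x, hx, ht⟩ := (hf w hw.1).2
      obtain ⟨y, hy, ht'⟩ := (hf w' hw'.1).2
      rw [he] at hx ht
      rw [ch_unique A hx hy] at ht
      exact top_unique A ht ht'
  simp only [Nat.card_Ico, Finset.card_range] at h3
  omega

theorem tops_ne {W : Set ℕ} (hW : CEIn A W) (hb : ∀ x, BddAbove (sec W x)) :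
    tops W ≠ {w | dS A w = true} := by
  classical
  obtain ⟨e, rfl⟩ := ceIn_iff_exists_WE.1 hW
  intro h
  obtain ⟨w, hw, hS⟩ := dS_large A e
  have h1 : w ∈ tops (WE A e) := by rw [h]; exact hS
  obtain ⟨x, hx⟩ := h1
  obtain ⟨y, hy⟩ := exists_ch A (e := e) (x := x) ⟨w, hw, hx.1⟩
  obtain ⟨w1, hw1, hw1'⟩ := hy.1
  obtain ⟨w0, hw0⟩ : ∃ w0, IsGreatest (sec (WE A e) y) w0 :=
    ⟨_, Nat.sSup_mem ⟨w1, hw1'⟩ (hb y), fun z hz => le_csSup (hb y) hz⟩
  have h2 : 2 * e + 2 ≤ w0 := hw1.trans (hw0.2 hw1')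
  have h3 : w0 ∈ {w | dS A w = true} := by rw [← h]; exact ⟨y, hw0⟩
  have h4 : ¬ exc A w0 := by
    have := of_decide_eq_true h3
    exact this.2
  refine h4 ⟨e, h2, y, hy, hw0.1, ?_⟩
  rintro ⟨w', hlt, hw'⟩
  exact absurd (hw0.2 hw') (by omega)

end

theorem exists_diag (A : ℕ → Bool) : ∃ S : ℕ → Bool, TLe S (jump A) ∧ S 0 = false ∧ S 1 = true ∧
    ∀ W : Set ℕ, CEIn A W → (∀ x, BddAbove (sec W x)) → tops W ≠ {w | S w = true} := by
  classical
  refine ⟨dS A, dS_tLe A, ?_, ?_, fun W hW hb => tops_ne A hW hb⟩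
  · unfold dS
    simp
  · unfold dS
    rw [decide_eq_true_iff]
    refine ⟨le_rfl, ?_⟩
    rintro ⟨e, he, -⟩
    omega

end Pool.Agent.L0h81.SH
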