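import Pool.Agent.L0h81.SH.Words
import Pool.Agent.L0h81.SH.Diag

set_option autoImplicit false

/-! The set of the sizes of the blocks is the set of the greatest elements of the sections of a set
c.e. in the jump of any copy. -/

namespace Pool.Agent.L0h81.SH

open Pool.Agent.Helper227

section
variable {F : ℕ → Prop} {sz : ℕ → ℕ}

/-- the order -/
abbrev TT (F : ℕ → Prop) (sz : ℕ → ℕ) : Type := {l : Wd // Val F sz l}

theorem one_le_col (hs : ∀ m, 1 ≤ sz m) {l : Wd} (h : Pos F sz l) : 1 ≤ col F sz l := by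
  obtain ⟨m0, h0⟩ := h.col_eq
  rw [h0]
  simp only [col]
  split_ifs
  · exact le_rfl
  · exact hs m0

theorem adj_iff (hs : ∀ m, 1 ≤ sz m) (a b : TT F sz) :
    (wlt a.1 b.1 ∧ ¬ ∃ c : TT F sz, wlt a.1 c.1 ∧ wlt c.1 b.1) ↔
      base F a.1 = base F b.1 ∧ idx F b.1 = idx F a.1 + 1 := by
  constructor
  · rintro ⟨h, hn⟩
    rw [wlt_val a.2 b.2] at h
    rcases h with h | ⟨h1, h2⟩
    · exfalso
      obtain ⟨p, h1, h2⟩ := (dlo hs).dense ⟨_, a.2.base⟩ ⟨_, b.2.base⟩ h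
      obtain ⟨h3, h4, h5⟩ := p.2.jn (one_le_col hs p.2)
      refine hn ⟨⟨_, h3⟩, ?_, ?_⟩
      · rw [wlt_val a.2 h3, h4]
        exact Or.inl h1
      · rw [wlt_val h3 b.2, h4]
        exact Or.inl h2
    · refine ⟨h1, ?_⟩
      by_contra h3
      have h4 : idx F a.1 + 1 < col F sz (base F a.1) := by
        have := b.2.idx_lt
        rw [← h1] at this
        omega
      obtain ⟨h5, h6, h7⟩ := a.2.base.jn h4
      refine hn ⟨⟨_, h5⟩, ?_, ?_⟩
      · rw [wlt_val a.2 h5, h6, h7]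
        exact Or.inr ⟨rfl, by omega⟩
      · rw [wlt_val h5 b.2, h6, h7]
        exact Or.inr ⟨h1, by omega⟩
  · rintro ⟨h1, h2⟩
    refine ⟨(wlt_val a.2 b.2).2 (Or.inr ⟨h1, by omega⟩), ?_⟩
    rintro ⟨c, h3, h4⟩
    rw [wlt_val a.2 c.2] at h3
    rw [wlt_val c.2 b.2, ← h1] at h4
    rcases h3 with h3 | ⟨h3, h5⟩ <;> rcases h4 with h4 | ⟨h4, h6⟩
    · exact wlt_asymm h3 h4
    · rw [h4] at h3
      exact wlt_irrefl _ h3
    · rw [h3] at h4
      exact wlt_irrefl _ h4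
    · omega

theorem exists_above (hs : ∀ m, 1 ≤ sz m) (a : TT F sz) : ∃ b : TT F sz, wlt a.1 b.1 := by
  obtain ⟨p, h1⟩ := (dlo hs).above ⟨_, a.2.base⟩
  obtain ⟨h3, h4, h5⟩ := p.2.jn (one_le_col hs p.2)
  exact ⟨⟨_, h3⟩, (wlt_val a.2 h3).2 (Or.inl (by rw [h4]; exact h1))⟩

/-- adjacency in the relation coded by `B` -/
def adjB (B : ℕ → Bool) (x y : ℕ) : Prop :=
  B (Nat.pair x y) = true ∧ ¬ ∃ z, B (Nat.pair x z) = true ∧ B (Nat.pair z y) = true

/-- chains of adjacent elements -/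
def chB (B : ℕ → Bool) (l : List ℕ) : Prop :=
  ∀ i < l.length, l.length ≤ i + 1 ∨ adjB B (l.getD i 0) (l.getD (i + 1) 0)

/-- the set c.e. in the jump -/
def WB (B : ℕ → Bool) : Set ℕ := {n | (∃ y, B (Nat.pair n.unpair.1 y) = true) ∧
  ∃ l : List ℕ, (l.length = n.unpair.2 ∧ n.unpair.1 ∈ l) ∧ chB B l}

theorem si_adjB (B : ℕ → Bool) : SI (jump B) fun x : ℕ × ℕ => adjB B x.1 x.2 := by
  have h1 : SI B fun x : ℕ × ℕ => B (Nat.pair x.1 x.2) = true :=
    (SI.query (B := B)).comp (f := fun x : ℕ × ℕ => (Nat.pair x.1 x.2, true))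
      ((Primrec₂.natPair.comp Primrec.fst Primrec.snd).pair (Primrec.const true))
  refine SI.and h1.decide_jump.1 ?_
  have h2 : SI B fun x : ℕ × ℕ => ∃ z, B (Nat.pair x.1 z) = true ∧ B (Nat.pair z x.2) = true := by
    refine SI.ex (p := fun (x : ℕ × ℕ) z => B (Nat.pair x.1 z) = true ∧ B (Nat.pair z x.2) = true)
      (SI.and ?_ ?_)
    · exact h1.comp (f := fun x : (ℕ × ℕ) × ℕ => (x.1.1, x.2))
        ((Primrec.fst.comp Primrec.fst).pair Primrec.snd)
    · exact h1.comp (f := fun x : (ℕ × ℕ) × ℕ => (x.2, x.1.2))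
        (Primrec.snd.pair (Primrec.snd.comp Primrec.fst))
  exact h2.decide_jump.2

theorem si_chB (B : ℕ → Bool) : SI (jump B) fun l : List ℕ => chB B l := by
  refine SI.all_lt (α := List ℕ)
    (p := fun l i => l.length ≤ i + 1 ∨ adjB B (l.getD i 0) (l.getD (i + 1) 0))
    (f := fun l => l.length) (SI.or (SI.of_prim ?_) ?_) Primrec.list_length
  · exact Primrec.nat_le.comp (Primrec.list_length.comp Primrec.fst)
      (Primrec.succ.comp Primrec.snd)
  · exact (si_adjB B).comp (f := fun x : List ℕ × ℕ => (x.1.getD x.2 0, x.1.getD (x.2 + 1) 0))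
      (((Primrec.list_getD 0).comp Primrec.fst Primrec.snd).pair
        ((Primrec.list_getD 0).comp Primrec.fst (Primrec.succ.comp Primrec.snd)))

theorem primrec_mem : PrimrecPred fun x : ℕ × List ℕ => x.1 ∈ x.2 := by
  have : PrimrecPred fun x : ℕ × List ℕ => ∃ y ∈ x.2, x.1 = y :=
    PP.ex_mem (f := fun x : ℕ × List ℕ => x.2) (p := fun x y => x.1 = y)
      (Primrec.eq.comp (Primrec.fst.comp Primrec.fst) Primrec.snd) Primrec.snd
  exact this.of_eq fun x => by simp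

theorem ceIn_WB (B : ℕ → Bool) : CEIn (jump B) (WB B) := by
  rw [SI.iff_ceIn]
  refine SI.and ?_ ?_
  · have h1 : SI B fun n : ℕ => ∃ y, B (Nat.pair n.unpair.1 y) = true := by
      refine SI.ex (p := fun (n y : ℕ) => B (Nat.pair n.unpair.1 y) = true) ?_
      exact (SI.query (B := B)).comp (f := fun x : ℕ × ℕ => (Nat.pair x.1.unpair.1 x.2, true))
        ((Primrec₂.natPair.comp (Primrec.fst.comp (Primrec.unpair.comp Primrec.fst))
          Primrec.snd).pair (Primrec.const true))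
    exact h1.decide_jump.1
  · refine SI.ex (p := fun (n : ℕ) (l : List ℕ) => (l.length = n.unpair.2 ∧ n.unpair.1 ∈ l) ∧
      chB B l) (SI.and (SI.and (SI.of_prim ?_) (SI.of_prim ?_)) ?_)
    · exact Primrec.eq.comp (Primrec.list_length.comp Primrec.snd)
        (Primrec.snd.comp (Primrec.unpair.comp Primrec.fst))
    · exact primrec_mem.comp ((Primrec.fst.comp (Primrec.unpair.comp Primrec.fst)).pair Primrec.snd)
    · exact (si_chB B).comp Primrec.snd

/-- `B` codes the strict order relation of the copy given by `f` -/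
def CodesLT (f : TT F sz → ℕ) (B : ℕ → Bool) : Prop :=
  ∀ x y, B (Nat.pair x y) = true ↔ ∃ a b : TT F sz, wlt a.1 b.1 ∧ x = f a ∧ y = f b

theorem adjB_iff (hs : ∀ m, 1 ≤ sz m) {f : TT F sz → ℕ} (hf : Function.Injective f)
    {B : ℕ → Bool} (hB : CodesLT f B) (x y : ℕ) : adjB B x y ↔ ∃ a b : TT F sz,
      (base F a.1 = base F b.1 ∧ idx F b.1 = idx F a.1 + 1) ∧ x = f a ∧ y = f b := by
  constructor
  · rintro ⟨h1, h2⟩
    obtain ⟨a, b, h3, rfl, rfl⟩ := (hB _ _).1 h1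
    refine ⟨a, b, (adj_iff hs a b).1 ⟨h3, ?_⟩, rfl, rfl⟩
    rintro ⟨c, h4, h5⟩
    exact h2 ⟨f c, (hB _ _).2 ⟨a, c, h4, rfl, rfl⟩, (hB _ _).2 ⟨c, b, h5, rfl, rfl⟩⟩
  · rintro ⟨a, b, h, rfl, rfl⟩
    obtain ⟨h1, h2⟩ := (adj_iff hs a b).2 h
    refine ⟨(hB _ _).2 ⟨a, b, h1, rfl, rfl⟩, ?_⟩
    rintro ⟨z, h3, h4⟩
    obtain ⟨a', c, h5, h6, rfl⟩ := (hB _ _).1 h3
    obtain ⟨c', b', h7, h8, h9⟩ := (hB _ _).1 h4
    obtain rfl := hf h6
    obtain rfl := hf h8
    obtain rfl := hf h9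
    exact h2 ⟨c, h5, h7⟩

theorem chain_le (hs : ∀ m, 1 ≤ sz m) {f : TT F sz → ℕ} (hf : Function.Injective f)
    {B : ℕ → Bool} (hB : CodesLT f B) (l : List ℕ) (hl : chB B l) (a : TT F sz) (ha : f a ∈ l) :
    l.length ≤ col F sz (base F a.1) := by
  obtain ⟨k, hk, hka⟩ := List.getElem_of_mem ha
  have hget : ∀ i (h : i < l.length), l.getD i 0 = l[i] := fun i h => by simp [h]
  have up : ∀ j, k + j < l.length → ∃ b : TT F sz, l.getD (k + j) 0 = f b ∧
      base F b.1 = base F a.1 ∧ idx F b.1 = idx F a.1 + j := by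
    intro j
    induction j with
    | zero => exact fun _ => ⟨a, by rw [Nat.add_zero, hget k hk, hka], rfl, rfl⟩
    | succ j ih =>
      intro hj
      obtain ⟨b, h1, h2, h3⟩ := ih (by omega)
      rcases hl (k + j) (by omega) with h4 | h4
      · omega
      obtain ⟨b', c, h5, h6, h7⟩ := (adjB_iff hs hf hB _ _).1 h4
      rw [h1] at h6
      obtain rfl := hf h6
      exact ⟨c, h7, by rw [← h5.1, h2], by rw [h5.2, h3]; omega⟩
  have down : ∀ j, j ≤ k → ∃ b : TT F sz, l.getD (k - j) 0 = f b ∧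
      base F b.1 = base F a.1 ∧ idx F b.1 + j = idx F a.1 := by
    intro j
    induction j with
    | zero => exact fun _ => ⟨a, by rw [Nat.sub_zero, hget k hk, hka], rfl, rfl⟩
    | succ j ih =>
      intro hj
      obtain ⟨b, h1, h2, h3⟩ := ih (by omega)
      rcases hl (k - (j + 1)) (by omega) with h4 | h4
      · omega
      obtain ⟨c, b', h5, h6, h7⟩ := (adjB_iff hs hf hB _ _).1 h4
      have h8 : k - (j + 1) + 1 = k - j := by omega
      rw [h8, h1] at h7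
      obtain rfl := hf h7
      exact ⟨c, h6, by rw [h5.1, h2], by have := h5.2; omega⟩
  obtain ⟨b, -, -, h1⟩ := down k le_rfl
  obtain ⟨c, -, h2, h3⟩ := up (l.length - 1 - k) (by omega)
  have h4 := c.2.idx_lt
  rw [h2] at h4
  omega

theorem exists_chain (hs : ∀ m, 1 ≤ sz m) {f : TT F sz → ℕ} (hf : Function.Injective f)
    {B : ℕ → Bool} (hB : CodesLT f B) (a : TT F sz) : ∃ l, l.length = col F sz (base F a.1) ∧
      f a ∈ l ∧ chB B l := by
  classical
  set K := col F sz (base F a.1) with hK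
  have hv : ∀ j (h : j < K), Val F sz (jn (base F a.1) j) := fun j h => (a.2.base.jn h).1
  set g : ℕ → ℕ := fun j => if h : j < K then f ⟨_, hv j h⟩ else 0 with hg
  have hgj : ∀ j (h : j < K), g j = f ⟨_, hv j h⟩ := fun j h => by simp [hg, h]
  refine ⟨(List.range K).map g, by simp, ?_, ?_⟩
  · rw [List.mem_map]
    refine ⟨idx F a.1, by rw [List.mem_range]; exact a.2.idx_lt, ?_⟩
    rw [hgj _ a.2.idx_lt]
    congr 1
    exact Subtype.ext a.2.jn_base
  · intro i hi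
    rw [List.length_map, List.length_range] at hi ⊢
    by_cases h : K ≤ i + 1
    · exact Or.inl h
    right
    have h1 : ((List.range K).map g).getD i 0 = g i := by
      simp [hi]
    have h2 : ((List.range K).map g).getD (i + 1) 0 = g (i + 1) := by
      have : i + 1 < K := by omega
      simp [this]
    rw [h1, h2, hgj i hi, hgj (i + 1) (by omega), adjB_iff hs hf hB]
    have e1 := a.2.base.jn hi
    have e2 := a.2.base.jn (show i + 1 < col F sz (base F a.1) by omega)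
    exact ⟨_, _, ⟨by rw [e1.2.1, e2.2.1], by rw [e1.2.2, e2.2.2]⟩, rfl, rfl⟩

theorem sec_WB (hs : ∀ m, 1 ≤ sz m) {f : TT F sz → ℕ} (hf : Function.Injective f)
    {B : ℕ → Bool} (hB : CodesLT f B) (x : ℕ) : (∀ w, w ∉ sec (WB B) x) ∨
      ∃ a : TT F sz, x = f a ∧ IsGreatest (sec (WB B) x) (col F sz (base F a.1)) := by
  by_cases hx : ∃ a : TT F sz, x = f a
  · right
    obtain ⟨a, rfl⟩ := hx
    refine ⟨a, rfl, ?_, ?_⟩
    · obtain ⟨l, h1, h2, h3⟩ := exists_chain hs hf hB a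
      obtain ⟨b, hb⟩ := exists_above hs a
      simp only [sec, WB, Set.mem_ofPred_eq, Nat.unpair_pair]
      exact ⟨⟨f b, (hB _ _).2 ⟨a, b, hb, rfl, rfl⟩⟩, l, ⟨h1, h2⟩, h3⟩
    · rintro w ⟨-, l, ⟨h1, h2⟩, h3⟩
      simp only [Nat.unpair_pair] at h1 h2
      rw [← h1]
      exact chain_le hs hf hB l h3 a h2
  · left
    rintro w ⟨⟨y, hy⟩, -⟩
    simp only [Nat.unpair_pair] at hy
    obtain ⟨a, b, -, h1, -⟩ := (hB _ _).1 hy
    exact hx ⟨a, h1⟩

theorem tops_WB {S : Set ℕ} (hG : Good F sz S) {f : TT F sz → ℕ} (hf : Function.Injective f)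
    {B : ℕ → Bool} (hB : CodesLT f B) : tops (WB B) = S := by
  ext w
  constructor
  · rintro ⟨x, hx⟩
    rcases sec_WB hG.pos hf hB x with h | ⟨a, -, h⟩
    · exact absurd hx.1 (h w)
    · rw [hx.unique h]
      exact hG.col_mem a.2.base
  · intro hw
    obtain ⟨l, hl, rfl⟩ := hG.exists_col hw
    obtain ⟨h1, h2, -⟩ := hl.jn (one_le_col hG.pos hl)
    refine ⟨f ⟨_, h1⟩, ?_⟩
    rcases sec_WB hG.pos hf hB (f ⟨_, h1⟩) with h | ⟨a, ha, h⟩
    · exfalso
      obtain ⟨l', h3, h4, h5⟩ := exists_chain hG.pos hf hB ⟨_, h1⟩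
      obtain ⟨b, hb⟩ := exists_above hG.pos ⟨_, h1⟩
      refine h l'.length ?_
      simp only [sec, WB, Set.mem_ofPred_eq, Nat.unpair_pair]
      exact ⟨⟨f b, (hB _ _).2 ⟨_, b, hb, rfl, rfl⟩⟩, l', ⟨rfl, h4⟩, h5⟩
    · obtain rfl := hf ha
      simp only at h
      rwa [h2] at h

theorem bdd_WB (hs : ∀ m, 1 ≤ sz m) {f : TT F sz → ℕ} (hf : Function.Injective f)
    {B : ℕ → Bool} (hB : CodesLT f B) (x : ℕ) : BddAbove (sec (WB B) x) := by
  rcases sec_WB hs hf hB x with h | ⟨a, -, h⟩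
  · exact ⟨0, fun w hw => absurd hw (h w)⟩
  · exact ⟨_, h.2⟩

/-- No copy has a jump that is below `A`. -/
theorem not_tLe {A S : ℕ → Bool} (hG : Good F sz {w | S w = true})
    (hS : ∀ W : Set ℕ, CEIn A W → (∀ x, BddAbove (sec W x)) → tops W ≠ {w | S w = true})
    {f : TT F sz → ℕ} (hf : Function.Injective f) {B : ℕ → Bool} (hB : CodesLT f B) :
    ¬ TLe (jump B) A := by
  intro h
  have h1 : CEIn A (WB B) := by
    rw [SI.iff_ceIn]
    exact (SI.iff_ceIn.1 (ceIn_WB B)).trans h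
  exact hS _ h1 (bdd_WB hG.pos hf hB) (tops_WB hG hf hB)

end

end Pool.Agent.L0h81.SH
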