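import Pool.Agent.L0h81.SH.Neg
import Pool.Agent.L0h81.SH.Copy

set_option autoImplicit false

/-!
# A linear ordering spectrum that separates the high from the low degrees (MP_79f3e7, Q1)

Not a hand-in: the statement follows from a published theorem (Frolov, Harizanov, Kalimullin, Kudinov and Miller
2012: the non-low_2 degrees are the spectrum of a linear ordering).

**Answer to Q1: yes.** There is a countable linear ordering whose degree spectrum contains every high
degree and contains no low degree. More exactly: every degree `x` with `x' ≥ 0''` (whether or not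
`x ≤ 0'`) is the degree of a copy with universe `ω`, and no copy (with universe any subset of `ω`)
has a degree `x` with `x' ≤ 0'`.

The ordering is the shuffle sum of the finite orders with sizes in a set `S ≤_T 0''` that is not
the range of a `0'`-limitwise monotonic function.

Sets of natural numbers are given by their characteristic functions `ℕ → Bool`; `TLe` is Turing
reducibility and `jump` is the Turing jump (`Pool.Agent.Helper227`).
-/

namespace Pool.Agent.L0h81.SH.SeparatesHighLow

open Pool.Agent.Helper227 Pool.Agent.L0h81.SH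

/-- The empty set. -/
def zero : ℕ → Bool := fun _ => false

/-- `X` and `Y` have the same Turing degree. -/
def TEq (X Y : ℕ → Bool) : Prop := TLe X Y ∧ TLe Y X

section
variable {L : Type} [LinearOrder L]

open Classical in
/-- For an injective function `f : L → ℕ`, the order relation `≤` of the copy of `L` whose universe
is the range of `f` (`f a` is below `f b` in the copy if and only if `a ≤ b`), as a set of codes of
pairs of natural numbers. -/
noncomputable def relLE (f : L → ℕ) : ℕ → Bool :=
  fun n => decide (∃ a b : L, a ≤ b ∧ n = Nat.pair (f a) (f b))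

open Classical in
/-- The strict order relation `<` of the copy of `L` given by `f`. -/
noncomputable def relLT (f : L → ℕ) : ℕ → Bool :=
  fun n => decide (∃ a b : L, a < b ∧ n = Nat.pair (f a) (f b))

end

/-- The degree of `X` belongs to the degree spectrum of `L`: it is the degree of the order relation
of a copy of `L` whose universe is a set of natural numbers. -/
def InSpec (L : Type) [LinearOrder L] (X : ℕ → Bool) : Prop :=
  ∃ f : L → ℕ, Function.Injective f ∧ TEq (relLE f) X

/-- The degree of `X` is in the class `H₁`: it is below `0'` and its jump is `0''`. -/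
def High (X : ℕ → Bool) : Prop := TLe X (jump zero) ∧ TEq (jump X) (jump (jump zero))

/-- The degree of `X` is in the class `L₁`: it is below `0'` and its jump is `0'`. -/
def Low (X : ℕ → Bool) : Prop := TLe X (jump zero) ∧ TEq (jump X) (jump zero)

theorem tLe_refl (A : ℕ → Bool) : TLe A A := tLe_iff_SI.2 SI.query

theorem tLe_trans {A B C : ℕ → Bool} (h : TLe A B) (h' : TLe B C) : TLe A C :=
  tLe_iff_SI.2 ((tLe_iff_SI.1 h).trans h')

section
variable (F : ℕ → Prop) (sz : ℕ → ℕ)

open Classical in
/-- the linear order on the valid words -/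
@[instance_reducible] noncomputable def lo : LinearOrder (TT F sz) :=
  letI : IsStrictTotalOrder (TT F sz) (fun a b => wlt a.1 b.1) :=
    { trichotomous := fun a b h1 h2 => by
        by_contra hne
        rcases wlt_total a.1 b.1 (fun h => hne (Subtype.ext h)) with h | h
        · exact h1 h
        · exact h2 h
      irrefl := fun a => wlt_irrefl _
      trans := fun a b c => wlt_trans _ _ _ }
  linearOrderOfSTO (fun a b : TT F sz => wlt a.1 b.1)

theorem lo_lt (a b : TT F sz) : (lo F sz).lt a b ↔ wlt a.1 b.1 := Iff.rfl

end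

theorem relLE_iff {L : Type} [LinearOrder L] (e : ℕ ≃ L) (n : ℕ) :
    relLE (e.symm) n = true ↔ n.unpair.1 = n.unpair.2 ∨ relLT (e.symm) n = true := by
  classical
  unfold relLE relLT
  rw [decide_eq_true_iff, decide_eq_true_iff]
  constructor
  · rintro ⟨a, b, h, rfl⟩
    rcases h.eq_or_lt with rfl | h
    · left
      simp
    · exact Or.inr ⟨a, b, h, rfl⟩
  · rintro (h | ⟨a, b, h, rfl⟩)
    · refine ⟨e n.unpair.1, e n.unpair.2, by rw [h], ?_⟩
      simp
    · exact ⟨a, b, h.le, rfl⟩

theorem tLe_relLT {L : Type} [LinearOrder L] {f : L → ℕ} (hf : Function.Injective f) :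
    TLe (relLT f) (relLE f) := by
  classical
  rw [tLe_iff_SI]
  have key : ∀ n, relLT f n = true ↔ relLE f n = true ∧ ¬ n.unpair.1 = n.unpair.2 := by
    intro n
    unfold relLE relLT
    rw [decide_eq_true_iff, decide_eq_true_iff]
    constructor
    · rintro ⟨a, b, h, rfl⟩
      refine ⟨⟨a, b, h.le, rfl⟩, ?_⟩
      simp only [Nat.unpair_pair]
      exact fun h2 => absurd (hf h2) h.ne
    · rintro ⟨⟨a, b, h, rfl⟩, h2⟩
      refine ⟨a, b, lt_of_le_of_ne h ?_, rfl⟩
      rintro rfl
      simp at h2
  have hq : ∀ c : Bool, SI (relLE f) fun x : ℕ × Bool => relLE f x.1 = c := fun c =>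
    (SI.query (B := relLE f)).comp (f := fun x : ℕ × Bool => (x.1, c))
      (Primrec.fst.pair (Primrec.const c))
  have hd : PrimrecPred fun x : ℕ × Bool => x.1.unpair.1 = x.1.unpair.2 :=
    Primrec.eq.comp (Primrec.fst.comp (Primrec.unpair.comp Primrec.fst))
      (Primrec.snd.comp (Primrec.unpair.comp Primrec.fst))
  have h1 : SI (relLE f) fun x : ℕ × Bool => (x.2 = true ∧ relLE f x.1 = true ∧
      ¬ x.1.unpair.1 = x.1.unpair.2) ∨ (x.2 = false ∧ (relLE f x.1 = false ∨
        x.1.unpair.1 = x.1.unpair.2)) := by
    refine SI.or (SI.and (SI.of_prim (Primrec.eq.comp Primrec.snd (Primrec.const true)))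
      (SI.and (hq true) (SI.of_prim hd.not)))
      (SI.and (SI.of_prim (Primrec.eq.comp Primrec.snd (Primrec.const false)))
        (SI.or (hq false) (SI.of_prim hd)))
  refine h1.of_eq fun x => ?_
  rcases x with ⟨n, b⟩
  have := key n
  by_cases h2 : n.unpair.1 = n.unpair.2 <;> cases h3 : relLE f n <;> cases h4 : relLT f n <;>
    cases b <;> simp_all

/-- **A positive answer to Q1.** There is a countable linear ordering `L` whose degree spectrum
contains every high degree and no low degree. Moreover, every degree `x`, not necessarily below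
`0'`, with `x' ≥ 0''` is the degree of a copy of `L` with universe `ω`; and no copy of `L`, with
universe any set of natural numbers, has a degree `x` with `x' ≤ 0'`, whether its degree is
understood as the degree of the relation `≤` or as that of `<`. -/
theorem separates_high_low : ∃ (L : Type) (_ : LinearOrder L), Countable L ∧
    (∀ X, High X → InSpec L X) ∧ (∀ X, Low X → ¬ InSpec L X) ∧
    (∀ X, TLe (jump (jump zero)) (jump X) →
      ∃ f : L ≃ ℕ, TEq (relLE f) X ∧ TEq (relLT f) X) ∧
    (∀ f : L → ℕ, Function.Injective f →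
      ¬ TLe (jump (relLE f)) (jump zero) ∧ ¬ TLe (jump (relLT f)) (jump zero)) := by
  classical
  obtain ⟨S, hS, hS0, hS1, hd⟩ := exists_diag (jump zero)
  obtain ⟨F, sz, hG, -, -⟩ := exists_F (X := jump zero) hS0 hS1 hS
  letI := lo F sz
  have hneg : ∀ f : TT F sz → ℕ, Function.Injective f →
      ¬ TLe (jump (relLE f)) (jump zero) ∧ ¬ TLe (jump (relLT f)) (jump zero) := by
    intro f hf
    have hc : CodesLT f (relLT f) := by
      intro x y
      unfold relLT
      rw [decide_eq_true_iff]
      constructor
      · rintro ⟨a, b, h, h2⟩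
        rw [Nat.pair_eq_pair] at h2
        exact ⟨a, b, h, h2.1, h2.2⟩
      · rintro ⟨a, b, h, rfl, rfl⟩
        exact ⟨a, b, h, rfl⟩
    have h1 : ¬ TLe (jump (relLT f)) (jump zero) := not_tLe hG hd hf hc
    exact ⟨fun h2 => h1 (tLe_trans (tLe_relLT hf).jump h2), h1⟩
  have hpos : ∀ X, TLe (jump (jump zero)) (jump X) →
      ∃ f : TT F sz ≃ ℕ, TEq (relLE f) X ∧ TEq (relLT f) X := by
    intro X hX
    obtain ⟨F', sz', hG', hF', hsz'⟩ := exists_F (X := X) hS0 hS1 (tLe_trans hS hX)
    obtain ⟨e, B, hBX, hB, hXB⟩ := exists_copy_deg hG'.pos hF' hsz'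
    obtain ⟨i, hi⟩ := iso_val hG' hG
    set g : ℕ ≃ TT F sz := e.trans i with hg
    have hBlt : relLT g.symm = B := by
      funext n
      rw [Bool.eq_iff_iff]
      unfold relLT
      rw [decide_eq_true_iff]
      constructor
      · rintro ⟨a, b, h, rfl⟩
        rw [hB]
        have h1 : wlt (i (e (g.symm a))).1 (i (e (g.symm b))).1 := by
          have e1 : i (e (g.symm a)) = a := g.apply_symm_apply a
          have e2 : i (e (g.symm b)) = b := g.apply_symm_apply b
          rw [e1, e2]
          exact h
        exact (hi _ _).2 h1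
      · intro h
        rw [← Nat.pair_unpair n, hB] at h
        refine ⟨g n.unpair.1, g n.unpair.2, (hi _ _).1 h, ?_⟩
        simp
    refine ⟨g.symm, ⟨?_, ?_⟩, ?_, ?_⟩
    · rw [tLe_iff_SI]
      have hq : ∀ c : Bool, SI X fun x : ℕ × Bool => relLT g.symm x.1 = c := fun c => by
        rw [hBlt]
        exact (tLe_iff_SI.1 hBX).comp (f := fun x : ℕ × Bool => (x.1, c))
          (Primrec.fst.pair (Primrec.const c))
      have hdp : PrimrecPred fun x : ℕ × Bool => x.1.unpair.1 = x.1.unpair.2 :=
        Primrec.eq.comp (Primrec.fst.comp (Primrec.unpair.comp Primrec.fst))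
          (Primrec.snd.comp (Primrec.unpair.comp Primrec.fst))
      have h1 : SI X fun x : ℕ × Bool => (x.2 = true ∧ (x.1.unpair.1 = x.1.unpair.2 ∨
          relLT g.symm x.1 = true)) ∨ (x.2 = false ∧ (¬ x.1.unpair.1 = x.1.unpair.2) ∧
            relLT g.symm x.1 = false) := by
        refine SI.or (SI.and (SI.of_prim (Primrec.eq.comp Primrec.snd (Primrec.const true)))
          (SI.or (SI.of_prim hdp) (hq true)))
          (SI.and (SI.of_prim (Primrec.eq.comp Primrec.snd (Primrec.const false)))
            (SI.and (SI.of_prim hdp.not) (hq false)))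
      refine h1.of_eq fun x => ?_
      rcases x with ⟨n, b⟩
      have := relLE_iff g n
      by_cases h2 : n.unpair.1 = n.unpair.2 <;> cases h3 : relLE g.symm n <;>
        cases h4 : relLT g.symm n <;> cases b <;> simp_all
    · refine tLe_of_computable (f := fun n => Nat.pair (2 * n) (2 * n + 1)) ?_ ?_
      · exact (Primrec₂.natPair.comp (Primrec.nat_mul.comp (Primrec.const 2) Primrec.id)
          (Primrec.succ.comp (Primrec.nat_mul.comp (Primrec.const 2) Primrec.id))).to_comp
      · intro n
        have h1 := relLE_iff g (Nat.pair (2 * n) (2 * n + 1))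
        rw [Nat.unpair_pair, hBlt, hXB] at h1
        have h2 : ¬ (2 * n = 2 * n + 1) := by omega
        simp only [h2, false_or] at h1
        rw [Bool.eq_iff_iff]
        exact h1.symm
    · rw [hBlt]
      exact hBX
    · rw [hBlt]
      refine tLe_of_computable (f := fun n => Nat.pair (2 * n) (2 * n + 1)) ?_
        fun n => (hXB n).symm
      exact (Primrec₂.natPair.comp (Primrec.nat_mul.comp (Primrec.const 2) Primrec.id)
          (Primrec.succ.comp (Primrec.nat_mul.comp (Primrec.const 2) Primrec.id))).to_comp
  refine ⟨TT F sz, lo F sz, inferInstance, ?_, ?_, hpos, hneg⟩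
  · intro X hX
    obtain ⟨f, hf, -⟩ := hpos X hX.2.2
    exact ⟨f, f.injective, hf⟩
  · rintro X hX ⟨f, hf, h1⟩
    exact (hneg f hf).1 (tLe_trans h1.1.jump hX.2.1)

end Pool.Agent.L0h81.SH.SeparatesHighLow
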