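import Pool.Agent.W889.VC.BF

set_option autoImplicit false

/-! A presentation of shuffle sums of finite linear orders by words. -/

namespace Pool.Agent.L0h81.SH

open Pool.Agent.W889.VC (DLO shuffle_unique)

/-- words -/
abbrev Wd := List (ℕ × ℕ)

/-- the order of the letters -/
def llt (a b : ℕ × ℕ) : Prop := a.1 < b.1 ∨ (a.1 = b.1 ∧ a.2 < b.2)

/-- the lexicographic order of words -/
def wlt : Wd → Wd → Prop
  | _, [] => False
  | [], _ :: _ => True
  | a :: l, b :: l' => llt a b ∨ (a = b ∧ wlt l l')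

@[simp] theorem wlt_nil (l : Wd) : ¬ wlt l [] := by cases l <;> simp [wlt]
@[simp] theorem nil_wlt (a : ℕ × ℕ) (l : Wd) : wlt [] (a :: l) := by simp [wlt]
theorem cons_wlt (a b : ℕ × ℕ) (l l' : Wd) :
    wlt (a :: l) (b :: l') ↔ llt a b ∨ (a = b ∧ wlt l l') := by simp [wlt]

theorem llt_irrefl (a : ℕ × ℕ) : ¬ llt a a := by simp [llt]
theorem llt_trans {a b c : ℕ × ℕ} (h : llt a b) (h' : llt b c) : llt a c := by
  unfold llt at *; omega
theorem llt_total {a b : ℕ × ℕ} (h : a ≠ b) : llt a b ∨ llt b a := by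
  rcases a with ⟨a1, a2⟩
  rcases b with ⟨b1, b2⟩
  simp only [ne_eq, Prod.mk.injEq, not_and] at h
  unfold llt
  simp only
  omega

theorem wlt_irrefl : ∀ l : Wd, ¬ wlt l l
  | [] => by simp
  | a :: l => by
    rw [cons_wlt]
    rintro (h | ⟨-, h⟩)
    · exact llt_irrefl a h
    · exact wlt_irrefl l h

theorem wlt_trans : ∀ l l' l'' : Wd, wlt l l' → wlt l' l'' → wlt l l''
  | _, _, [], _, h => absurd h (wlt_nil _)
  | _, [], _, h, _ => absurd h (wlt_nil _)
  | [], _, _ :: _, _, _ => nil_wlt _ _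
  | a :: l, b :: l', c :: l'', h, h' => by
    rw [cons_wlt] at *
    rcases h with h | ⟨rfl, h⟩ <;> rcases h' with h' | ⟨rfl, h'⟩
    · exact Or.inl (llt_trans h h')
    · exact Or.inl h
    · exact Or.inl h'
    · exact Or.inr ⟨rfl, wlt_trans _ _ _ h h'⟩

theorem wlt_total : ∀ l l' : Wd, l ≠ l' → wlt l l' ∨ wlt l' l
  | [], [], h => absurd rfl h
  | [], _ :: _, _ => Or.inl (nil_wlt _ _)
  | _ :: _, [], _ => Or.inr (nil_wlt _ _)
  | a :: l, b :: l', h => by
    rw [cons_wlt, cons_wlt]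
    by_cases hab : a = b
    · subst hab
      have h1 : l ≠ l' := fun h2 => h (by rw [h2])
      rcases wlt_total l l' h1 with h2 | h2
      · exact Or.inl (Or.inr ⟨rfl, h2⟩)
      · exact Or.inr (Or.inr ⟨rfl, h2⟩)
    · rcases llt_total hab with h2 | h2
      · exact Or.inl (Or.inl h2)
      · exact Or.inr (Or.inl h2)

theorem wlt_asymm {l l' : Wd} (h : wlt l l') (h' : wlt l' l) : False :=
  wlt_irrefl _ (wlt_trans _ _ _ h h')

theorem append_wlt (q l l' : Wd) : wlt (q ++ l) (q ++ l') ↔ wlt l l' := by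
  induction q with
  | nil => simp
  | cons a q ih =>
    rw [List.cons_append, List.cons_append, cons_wlt, ih]
    constructor
    · rintro (h | ⟨-, h⟩)
      · exact absurd h (llt_irrefl a)
      · exact h
    · exact fun h => Or.inr ⟨rfl, h⟩

theorem wlt_iff (l l' : Wd) : wlt l l' ↔ (∃ a s, l' = l ++ a :: s) ∨
    ∃ p a b s t, l = p ++ a :: s ∧ l' = p ++ b :: t ∧ llt a b := by
  constructor
  · induction l generalizing l' with
    | nil =>
      cases l' with
      | nil => simp
      | cons b l' => exact fun _ => Or.inl ⟨b, l', rfl⟩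
    | cons a l ih =>
      cases l' with
      | nil => intro h; exact absurd h (wlt_nil _)
      | cons b l' =>
        rw [cons_wlt]
        rintro (h | ⟨rfl, h⟩)
        · exact Or.inr ⟨[], a, b, l, l', rfl, rfl, h⟩
        · rcases ih l' h with ⟨c, s, rfl⟩ | ⟨p, c, d, s, t, rfl, rfl, h2⟩
          · exact Or.inl ⟨c, s, rfl⟩
          · exact Or.inr ⟨a :: p, c, d, s, t, rfl, rfl, h2⟩
  · rintro (⟨a, s, rfl⟩ | ⟨p, a, b, s, t, rfl, rfl, h⟩)
    · have := append_wlt l [] (a :: s)
      rw [List.append_nil] at this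
      exact this.2 (nil_wlt _ _)
    · rw [append_wlt, cons_wlt]
      exact Or.inl h

section
variable (F : ℕ → Prop) (sz : ℕ → ℕ)

/-- inner letters -/
def IL (x : ℕ × ℕ) : Prop := x.2 % 2 = 0 ∧ (x.2 = 0 ∨ (F x.1 ∧ x.2 < 2 * sz x.1))

/-- last letters -/
def EL (x : ℕ × ℕ) : Prop := x.2 % 2 = 1 ∧ x.2 < 2 * sz x.1

/-- valid words -/
def Val : Wd → Prop
  | [] => False
  | [x] => EL sz x
  | x :: y :: l => IL F sz x ∧ Val (y :: l)

/-- valid words for the positions of the blocks -/
def Pos : Wd → Prop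
  | [] => False
  | [x] => EL sz x ∧ (F x.1 ∨ x.2 = 1)
  | x :: y :: l => IL F sz x ∧ Pos (y :: l)

open Classical in
noncomputable def base : Wd → Wd
  | [] => []
  | [x] => [if F x.1 then x else (x.1, 1)]
  | x :: y :: l => x :: base (y :: l)

open Classical in
noncomputable def idx : Wd → ℕ
  | [] => 0
  | [x] => if F x.1 then 0 else x.2 / 2
  | _ :: y :: l => idx (y :: l)

open Classical in
noncomputable def col : Wd → ℕ
  | [] => 0
  | [x] => if F x.1 then 1 else sz x.1
  | _ :: y :: l => col (y :: l)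

def jn : Wd → ℕ → Wd
  | [], _ => []
  | [x], i => [(x.1, x.2 + 2 * i)]
  | x :: y :: l, i => x :: jn (y :: l) i

theorem jn_ne_nil : ∀ (l : Wd) (i : ℕ), l ≠ [] → jn l i ≠ []
  | [], _, h => absurd rfl h
  | [x], i, _ => by simp [jn]
  | x :: y :: l, i, _ => by simp [jn]

theorem base_ne_nil : ∀ (l : Wd), l ≠ [] → base F l ≠ []
  | [], h => absurd rfl h
  | [x], _ => by simp [base]
  | x :: y :: l, _ => by simp [base]

theorem base_cons (x : ℕ × ℕ) (l : Wd) (h : l ≠ []) : base F (x :: l) = x :: base F l := by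
  cases l with
  | nil => exact absurd rfl h
  | cons y l => simp [base]

theorem idx_cons (x : ℕ × ℕ) (l : Wd) (h : l ≠ []) : idx F (x :: l) = idx F l := by
  cases l with
  | nil => exact absurd rfl h
  | cons y l => simp [idx]

theorem col_cons (x : ℕ × ℕ) (l : Wd) (h : l ≠ []) : col F sz (x :: l) = col F sz l := by
  cases l with
  | nil => exact absurd rfl h
  | cons y l => simp [col]

theorem jn_cons (x : ℕ × ℕ) (l : Wd) (i : ℕ) (h : l ≠ []) : jn (x :: l) i = x :: jn l i := by
  cases l with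
  | nil => exact absurd rfl h
  | cons y l => simp [jn]

theorem val_cons (x : ℕ × ℕ) (l : Wd) (h : l ≠ []) :
    Val F sz (x :: l) ↔ IL F sz x ∧ Val F sz l := by
  cases l with
  | nil => exact absurd rfl h
  | cons y l => simp [Val]

theorem pos_cons (x : ℕ × ℕ) (l : Wd) (h : l ≠ []) :
    Pos F sz (x :: l) ↔ IL F sz x ∧ Pos F sz l := by
  cases l with
  | nil => exact absurd rfl h
  | cons y l => simp [Pos]

variable {F sz}

theorem Val.ne_nil {l : Wd} (h : Val F sz l) : l ≠ [] := by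
  rintro rfl
  simp [Val] at h

theorem Pos.ne_nil {l : Wd} (h : Pos F sz l) : l ≠ [] := by
  rintro rfl
  simp [Pos] at h

theorem Pos.val : ∀ {l : Wd}, Pos F sz l → Val F sz l
  | [], h => by simp [Pos] at h
  | [x], h => by simp only [Pos, Val] at *; exact h.1
  | x :: y :: l, h => by
    simp only [Pos, Val] at *
    exact ⟨h.1, Pos.val h.2⟩

theorem Val.base : ∀ {l : Wd}, Val F sz l → Pos F sz (base F l)
  | [], h => by simp [Val] at h
  | [x], h => by
    simp only [Val, EL] at h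
    by_cases hx : F x.1
    · have hb : SH.base F [x] = [x] := by simp [SH.base, hx]
      rw [hb]
      exact ⟨h, Or.inl hx⟩
    · have hb : SH.base F [x] = [(x.1, 1)] := by simp [SH.base, hx]
      rw [hb]
      exact ⟨⟨by norm_num, by change 1 < 2 * sz x.1; omega⟩, Or.inr rfl⟩
  | x :: y :: l, h => by
    simp only [Val] at h
    rw [base_cons F x (y :: l) (by simp), pos_cons _ _ _ _ (base_ne_nil F _ (by simp))]
    exact ⟨h.1, Val.base h.2⟩

theorem Val.idx_lt : ∀ {l : Wd}, Val F sz l → idx F l < col F sz (SH.base F l)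
  | [], h => by simp [Val] at h
  | [x], h => by
    simp only [Val, EL] at h
    by_cases hx : F x.1
    · simp [SH.base, idx, col, hx]
    · simp only [SH.base, idx, col, hx, if_false]
      omega
  | x :: y :: l, h => by
    simp only [Val] at h
    rw [base_cons F x (y :: l) (by simp), col_cons _ _ _ _ (base_ne_nil F _ (by simp)),
      idx_cons _ _ _ (by simp)]
    exact Val.idx_lt h.2

theorem Val.jn_base : ∀ {l : Wd}, Val F sz l → jn (SH.base F l) (idx F l) = l
  | [], h => by simp [Val] at h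
  | [x], h => by
    simp only [Val, EL] at h
    by_cases hx : F x.1
    · simp [SH.base, idx, jn, hx]
    · simp only [SH.base, idx, jn, hx, if_false]
      have : 1 + 2 * (x.2 / 2) = x.2 := by omega
      rw [this]
  | x :: y :: l, h => by
    simp only [Val] at h
    rw [base_cons F x (y :: l) (by simp), jn_cons _ _ _ (base_ne_nil F _ (by simp)),
      idx_cons _ _ _ (by simp), Val.jn_base h.2]

theorem Pos.jn : ∀ {l : Wd} {i : ℕ}, Pos F sz l → i < col F sz l →
    Val F sz (jn l i) ∧ SH.base F (SH.jn l i) = l ∧ idx F (SH.jn l i) = i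
  | [], i, h, _ => by simp [Pos] at h
  | [x], i, h, hi => by
    simp only [Pos, EL] at h
    by_cases hx : F x.1
    · simp only [col, hx, if_true] at hi
      have : i = 0 := by omega
      subst this
      simp only [SH.jn, Val, EL, SH.base, idx, hx, if_true]
      exact ⟨h.1, rfl, trivial⟩
    · simp only [col, hx, if_false] at hi
      have h1 : x.2 = 1 := by tauto
      simp only [SH.jn, Val, EL, SH.base, idx, hx, if_false]
      refine ⟨⟨by omega, by omega⟩, ?_, by omega⟩
      rw [← h1]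
  | x :: y :: l, i, h, hi => by
    simp only [Pos] at h
    rw [col_cons _ _ _ _ (by simp)] at hi
    have ih := Pos.jn h.2 hi
    have h1 : SH.jn (y :: l) i ≠ [] := jn_ne_nil _ _ (by simp)
    rw [jn_cons _ _ _ (by simp), val_cons _ _ _ _ h1, base_cons _ _ _ h1, idx_cons _ _ _ h1]
    exact ⟨⟨h.1, ih.1⟩, by rw [ih.2.1], ih.2.2⟩

/-- the order of valid words in terms of the block and the place in the block -/
theorem fwd : ∀ (l l' : Wd), Val F sz l → Val F sz l' → wlt l l' →
    wlt (base F l) (base F l') ∨ (base F l = base F l' ∧ idx F l < idx F l')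
  | [], _, h, _, _ => by simp [Val] at h
  | _, [], _, h, _ => by simp [Val] at h
  | [x], [y], h, h', hlt => by
    simp only [Val, EL] at h h'
    rw [cons_wlt] at hlt
    rcases hlt with hlt | ⟨-, hlt⟩
    swap
    · exact absurd hlt (wlt_nil _)
    have hlt' := hlt
    unfold llt at hlt
    rcases hlt with hlt | ⟨h1, h2⟩
    · left
      simp only [base, cons_wlt]
      left
      left
      split_ifs <;> exact hlt
    · by_cases hF : F x.1
      · left
        have hF' : F y.1 := h1 ▸ hF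
        simp only [base, cons_wlt, hF, hF', if_true]
        exact Or.inl hlt'
      · right
        have hF' : ¬ F y.1 := h1 ▸ hF
        simp only [base, idx, hF', if_false, h1, true_and]
        omega
  | [x], y :: z :: l', h, h', hlt => by
    simp only [Val, EL] at h h'
    rw [cons_wlt] at hlt
    left
    rw [base_cons F y (z :: l') (by simp)]
    obtain ⟨⟨h3, h4⟩, h5⟩ := h'
    have hlt' : llt x y := by
      rcases hlt with hlt | ⟨rfl, -⟩
      · exact hlt
      · omega
    unfold llt at hlt'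
    simp only [base, cons_wlt]
    left
    rcases hlt' with hlt' | ⟨h1, h2⟩
    · left
      split_ifs <;> exact hlt'
    · have hF : F x.1 := by
        rw [h1]
        rcases h4 with h4 | h4
        · omega
        · exact h4.1
      simp only [hF, if_true]
      exact Or.inr ⟨h1, h2⟩
  | x :: z :: l, [y], h, h', hlt => by
    simp only [Val, EL] at h h'
    rw [cons_wlt] at hlt
    left
    rw [base_cons F x (z :: l) (by simp)]
    obtain ⟨⟨h3, h4⟩, h5⟩ := h
    have hlt' : llt x y := by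
      rcases hlt with hlt | ⟨rfl, -⟩
      · exact hlt
      · omega
    simp only [base, cons_wlt]
    left
    by_cases hF : F y.1
    · simp only [hF, if_true]
      exact hlt'
    · simp only [hF, if_false]
      unfold llt at *
      rcases hlt' with hlt' | ⟨h1, h2⟩
      · exact Or.inl hlt'
      · refine Or.inr ⟨h1, ?_⟩
        rcases h4 with h4 | h4
        · simp only
          omega
        · exact absurd (h1 ▸ h4.1) hF
  | x :: z :: l, y :: w :: l', h, h', hlt => by
    simp only [Val] at h h'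
    rw [cons_wlt] at hlt
    rw [base_cons F x (z :: l) (by simp), base_cons F y (w :: l') (by simp), cons_wlt,
      idx_cons F x (z :: l) (by simp), idx_cons F y (w :: l') (by simp)]
    rcases hlt with hlt | ⟨rfl, hlt⟩
    · exact Or.inl (Or.inl hlt)
    · rcases fwd (z :: l) (w :: l') h.2 h'.2 hlt with h1 | ⟨h1, h2⟩
      · exact Or.inl (Or.inr ⟨rfl, h1⟩)
      · exact Or.inr ⟨by rw [h1], h2⟩

theorem wlt_val {l l' : Wd} (h : Val F sz l) (h' : Val F sz l') : wlt l l' ↔
    wlt (base F l) (base F l') ∨ (base F l = base F l' ∧ idx F l < idx F l') := by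
  refine ⟨fwd l l' h h', fun h1 => ?_⟩
  by_contra h2
  by_cases h3 : l = l'
  · subst h3
    rcases h1 with h1 | h1
    · exact wlt_irrefl _ h1
    · omega
  · rcases wlt_total l l' h3 with h4 | h4
    · exact h2 h4
    · rcases h1 with h1 | ⟨h1, h1'⟩ <;> rcases fwd l' l h' h h4 with h5 | ⟨h5, h5'⟩
      · exact wlt_asymm h1 h5
      · rw [h5] at h1
        exact wlt_irrefl _ h1
      · rw [h1] at h5
        exact wlt_irrefl _ h5
      · omega

/-- the form of positions -/
theorem Pos.form : ∀ {l : Wd}, Pos F sz l → ∃ q x, l = q ++ [x] ∧ (∀ y ∈ q, IL F sz y) ∧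
    EL sz x ∧ (F x.1 ∨ x.2 = 1)
  | [], h => by simp [Pos] at h
  | [x], h => by
    simp only [Pos] at h
    exact ⟨[], x, rfl, by simp, h.1, h.2⟩
  | x :: y :: l, h => by
    simp only [Pos] at h
    obtain ⟨q, z, h1, h2, h3, h4⟩ := Pos.form h.2
    refine ⟨x :: q, z, by rw [h1]; rfl, ?_, h3, h4⟩
    intro w hw
    rcases List.mem_cons.1 hw with rfl | hw
    · exact h.1
    · exact h2 w hw

theorem pos_append : ∀ (q l : Wd), (∀ y ∈ q, IL F sz y) → Pos F sz l → Pos F sz (q ++ l)
  | [], _, _, h => h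
  | x :: q, l, hq, h => by
    have h1 := pos_append q l (fun y hy => hq y (List.mem_cons_of_mem _ hy)) h
    rw [List.cons_append, pos_cons _ _ _ _ h1.ne_nil]
    exact ⟨hq x List.mem_cons_self, h1⟩

theorem col_append : ∀ (q l : Wd), l ≠ [] → col F sz (q ++ l) = col F sz l
  | [], _, _ => rfl
  | x :: q, l, h => by
    rw [List.cons_append, col_cons _ _ _ _ (by simp [h]), col_append q l h]

theorem val_iff : ∀ {l : Wd}, Val F sz l ↔ ∃ q x, l = q ++ [x] ∧ (∀ y ∈ q, IL F sz y) ∧ EL sz x := by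
  intro l
  constructor
  · induction l with
    | nil => intro h; simp [Val] at h
    | cons x l ih =>
      cases l with
      | nil =>
        intro h
        exact ⟨[], x, rfl, by simp, h⟩
      | cons y l =>
        intro h
        simp only [Val] at h
        obtain ⟨q, z, h1, h2, h3⟩ := ih h.2
        refine ⟨x :: q, z, by rw [h1]; rfl, ?_, h3⟩
        intro w hw
        rcases List.mem_cons.1 hw with rfl | hw
        · exact h.1
        · exact h2 w hw
  · rintro ⟨q, x, rfl, hq, hx⟩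
    induction q with
    | nil => exact hx
    | cons y q ih =>
      rw [List.cons_append, val_cons _ _ _ _ (by simp)]
      exact ⟨hq y List.mem_cons_self, ih fun w hw => hq w (List.mem_cons_of_mem _ hw)⟩

/-- a number larger than the first entries of all letters -/
theorem exists_bound (u : Wd) : ∃ M, ∀ x ∈ u, x.1 < M := by
  induction u with
  | nil => exact ⟨0, by simp⟩
  | cons a u ih =>
    obtain ⟨M, hM⟩ := ih
    refine ⟨max M (a.1 + 1), ?_⟩
    intro x hx
    rcases List.mem_cons.1 hx with rfl | hx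
    · omega
    · have := hM x hx
      omega

theorem lt_new (x : ℕ × ℕ) (hx : 1 ≤ x.2) (M m0 : ℕ) : ∀ (q u : Wd), (∀ x ∈ u, x.1 < M) →
    wlt u (q ++ [x]) → wlt u (q ++ [(x.1, x.2 - 1), (M, 0), (m0, 1)])
  | [], [], _, _ => nil_wlt _ _
  | [], a :: u, hM, h => by
    rw [List.nil_append, cons_wlt] at h ⊢
    rcases h with h | ⟨-, h⟩
    · by_cases h1 : a = (x.1, x.2 - 1)
      · refine Or.inr ⟨h1, ?_⟩
        cases u with
        | nil => exact nil_wlt _ _
        | cons b u =>
          rw [cons_wlt]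
          exact Or.inl (Or.inl (hM b (by simp)))
      · left
        rcases a with ⟨a1, a2⟩
        simp only [Prod.mk.injEq, not_and] at h1
        unfold llt at *
        simp only at *
        omega
    · exact absurd h (wlt_nil _)
  | b :: q, [], _, _ => nil_wlt _ _
  | b :: q, a :: u, hM, h => by
    rw [List.cons_append, cons_wlt] at h ⊢
    rcases h with h | ⟨h1, h⟩
    · exact Or.inl h
    · exact Or.inr ⟨h1, lt_new x hx M m0 q u (fun x hx => hM x (List.mem_cons_of_mem _ hx)) h⟩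

theorem new_lt (x : ℕ × ℕ) (hx : 1 ≤ x.2) (M m0 : ℕ) (q : Wd) :
    wlt (q ++ [(x.1, x.2 - 1), (M, 0), (m0, 1)]) (q ++ [x]) := by
  rw [append_wlt, cons_wlt]
  exact Or.inl (Or.inr ⟨rfl, by change x.2 - 1 < x.2; omega⟩)

/-- `S` is the set of the block sizes -/
structure Good (F : ℕ → Prop) (sz : ℕ → ℕ) (S : Set ℕ) : Prop where
  pos : ∀ m, 1 ≤ sz m
  mem : ∀ s, s ∈ S ↔ ∃ m, ¬ F m ∧ sz m = s
  one : 1 ∈ S

theorem new_pos (hs : ∀ m, 1 ≤ sz m) (x : ℕ × ℕ) (hx : EL sz x) (hF : F x.1 ∨ x.2 = 1) (M m0 : ℕ)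
    (q : Wd) (hq : ∀ y ∈ q, IL F sz y) : Pos F sz (q ++ [(x.1, x.2 - 1), (M, 0), (m0, 1)]) := by
  refine pos_append _ _ hq ?_
  unfold EL at hx
  have := hs m0
  refine ⟨⟨?_, ?_⟩, ⟨by norm_num, Or.inl rfl⟩, ⟨by norm_num, ?_⟩, Or.inr rfl⟩
  · change (x.2 - 1) % 2 = 0
    omega
  · change x.2 - 1 = 0 ∨ (F x.1 ∧ x.2 - 1 < 2 * sz x.1)
    rcases hF with hF | hF
    · exact Or.inr ⟨hF, by omega⟩
    · left
      omega
  · change 1 < 2 * sz m0
    omega

theorem top_pos (hs : ∀ m, 1 ≤ sz m) (M m0 : ℕ) : Pos F sz [(M, 0), (m0, 1)] := by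
  have := hs m0
  exact ⟨⟨by norm_num, Or.inl rfl⟩, ⟨by norm_num, by change 1 < 2 * sz m0; omega⟩, Or.inr rfl⟩

theorem lt_top (u : Wd) (M m0 : ℕ) (hM : ∀ x ∈ u, x.1 < M) : wlt u [(M, 0), (m0, 1)] := by
  cases u with
  | nil => exact nil_wlt _ _
  | cons b u =>
    rw [cons_wlt]
    exact Or.inl (Or.inl (hM b (by simp)))

/-- between two valid words, the second of which is a position, there is a position of any
label -/
theorem exists_between_pos (hs : ∀ m, 1 ≤ sz m) (u v : Wd) (hv : Pos F sz v) (h : wlt u v)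
    (m0 : ℕ) : ∃ x, Pos F sz x ∧ wlt u x ∧ wlt x v ∧ col F sz x = col F sz [(m0, 1)] := by
  obtain ⟨q, x, rfl, hq, hx, hF⟩ := hv.form
  obtain ⟨M, hM⟩ := exists_bound u
  have h1 : 1 ≤ x.2 := by
    unfold EL at hx
    omega
  refine ⟨_, new_pos hs x hx hF M m0 q hq, lt_new x h1 M m0 q u hM h, new_lt x h1 M m0 q, ?_⟩
  rw [col_append _ _ (by simp), col_cons _ _ _ _ (by simp), col_cons _ _ _ _ (by simp)]

/-- the order of the positions is dense without end points -/
theorem dlo (hs : ∀ m, 1 ≤ sz m) : DLO (fun a b : {l : Wd // Pos F sz l} => wlt a.1 b.1) where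
  irrefl a := wlt_irrefl _
  trans a b c := wlt_trans _ _ _
  total a b h := wlt_total _ _ fun h1 => h (Subtype.ext h1)
  dense a b h := by
    obtain ⟨x, hx, h1, h2, -⟩ := exists_between_pos hs a.1 b.1 b.2 h 0
    exact ⟨⟨x, hx⟩, h1, h2⟩
  above a := by
    obtain ⟨M, hM⟩ := exists_bound a.1
    exact ⟨⟨_, top_pos hs M 0⟩, lt_top _ _ _ hM⟩
  below a := by
    have h1 : wlt [] a.1 := by
      rcases a with ⟨l, hl⟩
      cases l with
      | nil => exact absurd rfl hl.ne_nil
      | cons b l => exact nil_wlt _ _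
    obtain ⟨x, hx, -, h2, -⟩ := exists_between_pos hs [] a.1 a.2 h1 0
    exact ⟨⟨x, hx⟩, h2⟩

theorem Pos.col_eq {l : Wd} (h : Pos F sz l) : ∃ m0, col F sz l = col F sz [(m0, 1)] := by
  obtain ⟨q, x, rfl, -, -, -⟩ := h.form
  refine ⟨x.1, ?_⟩
  rw [col_append _ _ (by simp)]
  simp [col]

theorem Good.col_mem {S : Set ℕ} (hG : Good F sz S) {l : Wd} (h : Pos F sz l) :
    col F sz l ∈ S := by
  obtain ⟨m0, h0⟩ := h.col_eq
  rw [h0]
  by_cases hF : F m0
  · simp only [col, hF, if_true]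
    exact hG.one
  · simp only [col, hF, if_false]
    exact (hG.mem _).2 ⟨m0, hF, rfl⟩

theorem Good.exists_col {S : Set ℕ} (hG : Good F sz S) {s : ℕ} (h : s ∈ S) :
    ∃ l, Pos F sz l ∧ col F sz l = s := by
  obtain ⟨m, hm, rfl⟩ := (hG.mem s).1 h
  refine ⟨_, top_pos hG.pos 0 m, ?_⟩
  simp [col, hm]

/-- the block orders are determined by the set of the sizes -/
theorem iso_pos {F' : ℕ → Prop} {sz' : ℕ → ℕ} {S : Set ℕ} (hG : Good F sz S) (hG' : Good F' sz' S) :
    ∃ e : {l : Wd // Pos F sz l} ≃ {l : Wd // Pos F' sz' l},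
      (∀ a b, wlt a.1 b.1 ↔ wlt (e a).1 (e b).1) ∧ ∀ a, col F' sz' (e a).1 = col F sz a.1 := by
  refine shuffle_unique (fun a b : {l : Wd // Pos F sz l} => wlt a.1 b.1)
    (fun a b : {l : Wd // Pos F' sz' l} => wlt a.1 b.1) (dlo hG.pos) (dlo hG'.pos)
    (fun a => col F sz a.1) (fun a => col F' sz' a.1) ?_ ?_ ?_ ?_
  · intro a a1 a2 h
    obtain ⟨m0, h0⟩ := a.2.col_eq
    obtain ⟨x, hx, h1, h2, h3⟩ := exists_between_pos hG.pos a1.1 a2.1 a2.2 h m0
    exact ⟨⟨x, hx⟩, h1, h2, by rw [h3, h0]⟩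
  · intro a a1 a2 h
    obtain ⟨m0, h0⟩ := a.2.col_eq
    obtain ⟨x, hx, h1, h2, h3⟩ := exists_between_pos hG'.pos a1.1 a2.1 a2.2 h m0
    exact ⟨⟨x, hx⟩, h1, h2, by rw [h3, h0]⟩
  · intro a
    obtain ⟨l, hl, h⟩ := hG'.exists_col (hG.col_mem a.2)
    exact ⟨⟨l, hl⟩, h⟩
  · intro a
    obtain ⟨l, hl, h⟩ := hG.exists_col (hG'.col_mem a.2)
    exact ⟨⟨l, hl⟩, h⟩

/-- the orders of the valid words are determined by the set of the sizes -/
theorem iso_val {F' : ℕ → Prop} {sz' : ℕ → ℕ} {S : Set ℕ} (hG : Good F sz S) (hG' : Good F' sz' S) :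
    ∃ e : {l : Wd // Val F sz l} ≃ {l : Wd // Val F' sz' l},
      ∀ a b, wlt a.1 b.1 ↔ wlt (e a).1 (e b).1 := by
  obtain ⟨e, he, hc⟩ := iso_pos hG hG'
  have key : ∀ a : {l : Wd // Val F sz l}, idx F a.1 < col F' sz' (e ⟨base F a.1, a.2.base⟩).1 := by
    intro a
    rw [hc]
    exact a.2.idx_lt
  have key' : ∀ a : {l : Wd // Val F' sz' l},
      idx F' a.1 < col F sz (e.symm ⟨base F' a.1, a.2.base⟩).1 := by
    intro a
    have := hc (e.symm ⟨base F' a.1, a.2.base⟩)
    rw [Equiv.apply_symm_apply] at this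
    rw [← this]
    exact a.2.idx_lt
  refine ⟨⟨fun a => ⟨jn (e ⟨base F a.1, a.2.base⟩).1 (idx F a.1),
      (Pos.jn (e ⟨base F a.1, a.2.base⟩).2 (key a)).1⟩,
    fun a => ⟨jn (e.symm ⟨base F' a.1, a.2.base⟩).1 (idx F' a.1),
      (Pos.jn (e.symm ⟨base F' a.1, a.2.base⟩).2 (key' a)).1⟩, ?_, ?_⟩, ?_⟩
  · intro a
    have h1 := (Pos.jn (e ⟨base F a.1, a.2.base⟩).2 (key a))
    refine Subtype.ext ?_
    simp only
    have h2 : (⟨base F' (jn (e ⟨base F a.1, a.2.base⟩).1 (idx F a.1)), h1.1.base⟩ :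
        {l : Wd // Pos F' sz' l}) = e ⟨base F a.1, a.2.base⟩ := Subtype.ext h1.2.1
    rw [h2, h1.2.2, Equiv.symm_apply_apply]
    exact a.2.jn_base
  · intro a
    have h1 := (Pos.jn (e.symm ⟨base F' a.1, a.2.base⟩).2 (key' a))
    refine Subtype.ext ?_
    simp only
    have h2 : (⟨base F (jn (e.symm ⟨base F' a.1, a.2.base⟩).1 (idx F' a.1)), h1.1.base⟩ :
        {l : Wd // Pos F sz l}) = e.symm ⟨base F' a.1, a.2.base⟩ := Subtype.ext h1.2.1
    rw [h2, h1.2.2, Equiv.apply_symm_apply]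
    exact a.2.jn_base
  · intro a b
    have h1 := (Pos.jn (e ⟨base F a.1, a.2.base⟩).2 (key a))
    have h2 := (Pos.jn (e ⟨base F b.1, b.2.base⟩).2 (key b))
    simp only [Equiv.coe_fn_mk]
    rw [wlt_val a.2 b.2, wlt_val h1.1 h2.1, h1.2.1, h1.2.2, h2.2.1, h2.2.2, ← he]
    refine or_congr Iff.rfl (and_congr ?_ Iff.rfl)
    constructor
    · intro h
      congr 2
      exact Subtype.ext h
    · intro h
      have := e.injective (Subtype.ext h)
      exact congrArg Subtype.val this

end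

end Pool.Agent.L0h81.SH
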